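import Pool.Agent.Lib.MP_d4d38b_gt.Congruence

/-!
The angle between a symmetric surface and the horizontal plane along the common diameter.
-/

namespace Pool.Agent.MP_d4d38b

open Set Metric Filter Topology

/-- `c` is the cosine of the angle (between `0` and `π / 2`) which the tangent plane of `A` at
the point `(t, 0, 0)` makes with the plane `z = 0`: the absolute value of the third coordinate
of the unit normal. -/
def AngleCos (A : Set E3) (t c : ℝ) : Prop :=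
  ∃ (Q : E3 ≃ₗᵢ[ℝ] E3) (δ : ℝ) (u : ℝ × ℝ → ℝ),
    GraphAt A (vec t 0 0) Q δ u ∧ c = |Q.symm (vec 0 0 1) 2|

/-- a tangent vector of the surface satisfies the linearised equation of every other graph
representation -/
lemma tangent_two {A : Set E3} {p : E3} {Q Q' : E3 ≃ₗᵢ[ℝ] E3} {δ : ℝ} {u u' : ℝ × ℝ → ℝ}
    (hA : GraphAt A p Q δ u) (pA : p ∈ A) (hu' : AnalyticAt ℝ u' (Q' p 0, Q' p 1))
    (hg : ∀ᶠ q in 𝓝 p, q ∈ A → Q' q 2 = u' (Q' q 0, Q' q 1)) (e : E3) (he : Q e 2 = 0) :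
    Q' e 2 = Q' e 0 * dx u' (Q' p 0, Q' p 1) + Q' e 1 * dy u' (Q' p 0, Q' p 1) := by
  have hua := hA.analytic
  have hsl := hA.slope
  set P0 := Q p 0 with hP0
  set P1 := Q p 1 with hP1
  have m0 : ((P0, P1) : ℝ × ℝ) ∈ ball ((P0, P1) : ℝ × ℝ) δ := mem_ball_self hA.pos
  have u0 : u (P0, P1) = Q p 2 :=
    ((hA.graph p (by rw [← hP0, sub_self, abs_zero]; exact hA.pos)
      (by rw [← hP1, sub_self, abs_zero]; exact hA.pos)
      (by rw [sub_self, abs_zero]; exact hA.pos)).1 pA).symm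
  set a := Q e 0 with ha
  set b := Q e 1 with hb
  have ee : e = Q.symm (vec a b 0) := by
    apply Q.injective
    rw [Q.apply_symm_apply]
    apply ext3
    · simp [ha]
    · simp [hb]
    · simp [he]
  have hcurve : HasDerivAt (fun t : ℝ => ((P0 + t * a, P1 + t * b) : ℝ × ℝ)) (a, b) 0 := by
    have h1 : HasDerivAt (fun t : ℝ => P0 + t * a) (1 * a) 0 :=
      ((hasDerivAt_id (0 : ℝ)).mul_const a).const_add P0
    have h2 : HasDerivAt (fun t : ℝ => P1 + t * b) (1 * b) 0 :=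
      ((hasDerivAt_id (0 : ℝ)).mul_const b).const_add P1
    simpa using h1.prodMk h2
  have hu : HasDerivAt (fun t : ℝ => u (P0 + t * a, P1 + t * b)) 0 0 := by
    have h1 : HasFDerivAt u (fderiv ℝ u (P0, P1)) ((P0 + 0 * a, P1 + 0 * b) : ℝ × ℝ) := by
      rw [zero_mul, zero_mul, add_zero, add_zero]
      exact (hua _ m0).differentiableAt.hasFDerivAt
    have h2 : HasDerivAt (fun t : ℝ => u (P0 + t * a, P1 + t * b))
        (fderiv ℝ u (P0, P1) (a, b)) 0 := h1.comp_hasDerivAt (0 : ℝ) hcurve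
    rw [fderiv_eq_zero hsl.1 hsl.2] at h2
    exact h2
  set L : E3 ≃ₗᵢ[ℝ] E3 := Q.symm.trans Q' with hL
  have hLe : ∀ i, Q' e i = a * L (vec 1 0 0) i + b * L (vec 0 1 0) i := by
    intro i
    have : Q' e = L (vec a b 0) := by rw [hL, ee]; rfl
    rw [this, lin_coord]; ring
  set g : ℝ → E3 := fun t => vec (P0 + t * a) (P1 + t * b) (u (P0 + t * a, P1 + t * b)) with hgdef
  have g0 : Q.symm (g 0) = p := by
    apply Q.injective
    rw [Q.apply_symm_apply, hgdef]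
    simp only [zero_mul, add_zero]
    rw [u0, hP0, hP1]
    exact vec_eta _
  have hcoord : ∀ i : Fin 3, HasDerivAt (fun t : ℝ => L (g t) i) (Q' e i) 0 := by
    intro i
    have h0 : (fun t : ℝ => L (g t) i) = fun t : ℝ =>
        (P0 + t * a) * L (vec 1 0 0) i + (P1 + t * b) * L (vec 0 1 0) i
          + u (P0 + t * a, P1 + t * b) * L (vec 0 0 1) i := by
      funext t; exact lin_coord _ _ _ _ _
    rw [h0, hLe]
    have h1 : HasDerivAt (fun t : ℝ => P0 + t * a) a 0 := by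
      simpa using ((hasDerivAt_id (0 : ℝ)).mul_const a).const_add P0
    have h2 : HasDerivAt (fun t : ℝ => P1 + t * b) b 0 := by
      simpa using ((hasDerivAt_id (0 : ℝ)).mul_const b).const_add P1
    have h3 : HasDerivAt (fun t : ℝ => (P0 + t * a) * L (vec 1 0 0) i
        + (P1 + t * b) * L (vec 0 1 0) i + u (P0 + t * a, P1 + t * b) * L (vec 0 0 1) i)
        (a * L (vec 1 0 0) i + b * L (vec 0 1 0) i + 0 * L (vec 0 0 1) i) 0 :=
      ((h1.mul_const (L (vec 1 0 0) i)).add (h2.mul_const (L (vec 0 1 0) i))).add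
      (hu.mul_const (L (vec 0 0 1) i))
    rw [zero_mul, add_zero] at h3
    exact h3
  have L0 : ∀ i, L (g 0) i = Q' p i := by
    intro i
    have : L (g 0) = Q' (Q.symm (g 0)) := rfl
    rw [this, g0]
  have hcd : HasDerivAt (fun t : ℝ => ((L (g t) 0, L (g t) 1) : ℝ × ℝ)) (Q' e 0, Q' e 1) 0 :=
    (hcoord 0).prodMk (hcoord 1)
  have hu'd : HasDerivAt (fun t : ℝ => u' (L (g t) 0, L (g t) 1))
      (fderiv ℝ u' (Q' p 0, Q' p 1) (Q' e 0, Q' e 1)) 0 := by
    have h1 : HasFDerivAt u' (fderiv ℝ u' (Q' p 0, Q' p 1)) (L (g 0) 0, L (g 0) 1) := by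
      rw [L0, L0]
      exact hu'.differentiableAt.hasFDerivAt
    exact h1.comp_hasDerivAt (0 : ℝ) hcd
  have hgc : ContinuousAt g 0 := by
    have c1 : ContinuousAt (fun t : ℝ => P0 + t * a) 0 := by fun_prop
    have c2 : ContinuousAt (fun t : ℝ => P1 + t * b) 0 := by fun_prop
    have h : g = fun t : ℝ => (P0 + t * a) • vec 1 0 0 + (P1 + t * b) • vec 0 1 0
        + u (P0 + t * a, P1 + t * b) • vec 0 0 1 := by
      funext t; exact vec_decomp _ _ _
    rw [h]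
    exact ((c1.smul continuousAt_const).add (c2.smul continuousAt_const)).add
      (hu.continuousAt.smul continuousAt_const)
  have hsc : ContinuousAt (fun t : ℝ => Q.symm (g t)) 0 :=
    Q.symm.continuous.continuousAt.comp hgc
  have hev : (fun t : ℝ => L (g t) 2) =ᶠ[𝓝 0] fun t : ℝ => u' (L (g t) 0, L (g t) 1) := by
    have e1 : ∀ᶠ t : ℝ in 𝓝 0, Q.symm (g t) ∈ ball p δ := by
      have := hsc.eventually (ball_mem_nhds (Q.symm (g 0)) hA.pos)
      rwa [g0] at this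
    have e2 : ∀ᶠ t : ℝ in 𝓝 0, (Q.symm (g t) ∈ A →
        Q' (Q.symm (g t)) 2 = u' (Q' (Q.symm (g t)) 0, Q' (Q.symm (g t)) 1)) := by
      have h0 : Tendsto (fun t : ℝ => Q.symm (g t)) (𝓝 0) (𝓝 p) := by
        have := hsc.tendsto
        rwa [g0] at this
      exact h0.eventually hg
    filter_upwards [e1, e2] with t h1 h2
    have hAt : Q.symm (g t) ∈ A := by
      refine (hA.graph _ (coord_lt h1 0) (coord_lt h1 1) (coord_lt h1 2)).2 ?_
      rw [Q.apply_symm_apply]; rfl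
    exact h2 hAt
  have hfin := hu'd.congr_of_eventuallyEq hev
  rw [(hcoord 2).unique hfin, fderiv_two]

lemma inner3 (p q : E3) : inner ℝ p q = p 0 * q 0 + p 1 * q 1 + p 2 * q 2 := by
  rw [PiLp.inner_apply, Fin.sum_univ_three]
  simp only [RCLike.inner_apply, conj_trivial]
  ring

/-- the normals of two graph representations -/
lemma normal_two {A : Set E3} {p : E3} {Q Q' : E3 ≃ₗᵢ[ℝ] E3} {δ : ℝ} {u u' : ℝ × ℝ → ℝ}
    (hA : GraphAt A p Q δ u) (pA : p ∈ A) (hu' : AnalyticAt ℝ u' (Q' p 0, Q' p 1))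
    (hg : ∀ᶠ q in 𝓝 p, q ∈ A → Q' q 2 = u' (Q' q 0, Q' q 1)) :
    (Q'.symm (vec (-dx u' (Q' p 0, Q' p 1)) (-dy u' (Q' p 0, Q' p 1)) 1) 2) ^ 2 =
      (dx u' (Q' p 0, Q' p 1) ^ 2 + dy u' (Q' p 0, Q' p 1) ^ 2 + 1) *
        (Q.symm (vec 0 0 1) 2) ^ 2 := by
  have key := tangent_two hA pA hu' hg
  set α := dx u' (Q' p 0, Q' p 1)
  set β := dy u' (Q' p 0, Q' p 1)
  set N : E3 := vec (-α) (-β) 1 with hN
  set N' : E3 := Q (Q'.symm N) with hN'
  have hin : ∀ e : E3, Q e 2 = 0 → inner ℝ (Q e) N' = 0 := by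
    intro e he
    rw [hN', Q.inner_map_map]
    have : inner ℝ e (Q'.symm N) = inner ℝ (Q' e) N := by
      rw [← Q'.inner_map_map, Q'.apply_symm_apply]
    rw [this, inner3, hN]
    simp only [vec_0, vec_1, vec_2]
    rw [key e he]; ring
  have z0 : N' 0 = 0 := by
    have := hin (Q.symm (vec 1 0 0)) (by simp)
    rw [Q.apply_symm_apply, inner3] at this
    simpa using this
  have z1 : N' 1 = 0 := by
    have := hin (Q.symm (vec 0 1 0)) (by simp)
    rw [Q.apply_symm_apply, inner3] at this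
    simpa using this
  have z2 : (N' 2) ^ 2 = α ^ 2 + β ^ 2 + 1 := by
    have h1 : ‖N'‖ ^ 2 = ‖N‖ ^ 2 := by rw [hN', Q.norm_map, Q'.symm.norm_map]
    rw [norm_sq3 N', z0, z1, hN, norm_vec] at h1
    linarith
  have hsym : Q'.symm N = (N' 2) • Q.symm (vec 0 0 1) := by
    rw [← map_smul]
    apply Q.injective
    rw [Q.apply_symm_apply, ← hN']
    apply ext3
    · rw [z0]; simp
    · rw [z1]; simp
    · simp
  have : Q'.symm N 2 = N' 2 * Q.symm (vec 0 0 1) 2 := by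
    rw [hsym]; rfl
  rw [this, mul_pow, z2]

lemma graphAt_eventually {A : Set E3} {p q : E3} {Q : E3 ≃ₗᵢ[ℝ] E3} {δ : ℝ} {u : ℝ × ℝ → ℝ}
    (hA : GraphAt A p Q δ u) (hq : q ∈ ball p δ) :
    ∀ᶠ x in 𝓝 q, x ∈ A → Q x 2 = u (Q x 0, Q x 1) := by
  filter_upwards [isOpen_ball.mem_nhds hq] with x hx hxA
  exact (hA.graph x (coord_lt hx 0) (coord_lt hx 1) (coord_lt hx 2)).1 hxA

lemma vec_mem_ball {s t δ : ℝ} (h : |s - t| < δ) : vec s 0 0 ∈ ball (vec t 0 0) δ := by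
  rw [mem_ball, dist_eq_norm]
  have e : vec s 0 0 - vec t 0 0 = vec (s - t) 0 0 := by apply ext3 <;> simp
  have h1 : ‖vec (s - t) 0 0‖ ^ 2 = (s - t) ^ 2 := by rw [norm_vec]; ring
  have h2 : ‖vec (s - t) 0 0‖ = |s - t| := by
    rw [← Real.sqrt_sq (norm_nonneg _), h1, Real.sqrt_sq_eq_abs]
  rw [e, h2]; exact h

lemma vec_mem_unit {t : ℝ} (h : |t| < 1) : vec t 0 0 ∈ ball (0 : E3) 1 := by
  have : vec 0 0 0 = (0 : E3) := by apply ext3 <;> simp
  have h1 := vec_mem_ball (s := t) (t := 0) (δ := 1) (by simpa using h)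
  rwa [this] at h1

/-- the square of the cosine of the angle is a real analytic function on the open diameter -/
lemma exists_angle {n : ℕ} (hn : 2 ≤ n) {A : Set E3} (hA : IsSurface A) (gA : Antiprism n A)
    (zA : (0 : E3) ∈ A) : ∃ m : ℝ → ℝ, AnalyticOnNhd ℝ m (ball (0 : ℝ) 1) ∧
      (∀ t ∈ ball (0 : ℝ) 1, ∀ (Q : E3 ≃ₗᵢ[ℝ] E3) (δ : ℝ) (u : ℝ × ℝ → ℝ),
        GraphAt A (vec t 0 0) Q δ u → (Q.symm (vec 0 0 1) 2) ^ 2 = m t) ∧
      (∀ r U, StdGraph A r U → ∀ t : ℝ, |t| < r → |t| < 1 → m t * (1 + dy U (t, 0) ^ 2) = 1) := by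
  classical
  have hmem : ∀ t : ℝ, |t| < 1 → vec t 0 0 ∈ A := fun t ht => axis_subset hn hA gA zA t ht.le
  have hex : ∀ t : ℝ, |t| < 1 → ∃ (Q : E3 ≃ₗᵢ[ℝ] E3) (δ : ℝ) (u : ℝ × ℝ → ℝ),
      GraphAt A (vec t 0 0) Q δ u := fun t ht => hA.local_graph _ ⟨hmem t ht, vec_mem_unit ht⟩
  choose! Qf δf uf hf using hex
  set m : ℝ → ℝ := fun t => ((Qf t).symm (vec 0 0 1) 2) ^ 2 with hm
  have hwell : ∀ t : ℝ, |t| < 1 → ∀ (Q : E3 ≃ₗᵢ[ℝ] E3) (δ : ℝ) (u : ℝ × ℝ → ℝ),
      GraphAt A (vec t 0 0) Q δ u → (Q.symm (vec 0 0 1) 2) ^ 2 = m t := by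
    intro t ht Q δ u h
    have h1 := normal_two (hf t ht) (hmem t ht)
      (h.analytic _ (mem_ball_self h.pos)) (graphAt_eventually h (mem_ball_self h.pos))
    rw [h.slope.1, h.slope.2] at h1
    simp only [neg_zero] at h1
    rw [hm]
    simp only
    linarith
  refine ⟨m, ?_, fun t ht => hwell t (by simpa using ht), ?_⟩
  · intro t₀ ht₀
    have ht₀' : |t₀| < 1 := by simpa using ht₀
    have h := hf t₀ ht₀'
    set Q := Qf t₀
    set δ := δf t₀
    set u := uf t₀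
    have hQ : ∀ (s : ℝ) (i : Fin 3), Q (vec s 0 0) i = s * Q (vec 1 0 0) i := by
      intro s i; rw [lin_coord]; ring
    have aQ : ∀ (i : Fin 3) (s : ℝ), AnalyticAt ℝ (fun s : ℝ => Q (vec s 0 0) i) s := by
      intro i s
      have : (fun s : ℝ => Q (vec s 0 0) i) = fun s : ℝ => s * Q (vec 1 0 0) i := by
        funext s; exact hQ s i
      rw [this]
      exact analyticAt_id.mul analyticAt_const
    have apair : AnalyticAt ℝ
        (fun s : ℝ => ((Q (vec s 0 0) 0, Q (vec s 0 0) 1) : ℝ × ℝ)) t₀ := (aQ 0 t₀).prod (aQ 1 t₀)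
    have au := h.analytic _ (mem_ball_self h.pos)
    have a1 : AnalyticAt ℝ (fun s : ℝ => dx u (Q (vec s 0 0) 0, Q (vec s 0 0) 1)) t₀ :=
      (analyticAt_dx au).comp
        (f := fun s : ℝ => ((Q (vec s 0 0) 0, Q (vec s 0 0) 1) : ℝ × ℝ)) apair
    have a2 : AnalyticAt ℝ (fun s : ℝ => dy u (Q (vec s 0 0) 0, Q (vec s 0 0) 1)) t₀ :=
      (analyticAt_dy au).comp
        (f := fun s : ℝ => ((Q (vec s 0 0) 0, Q (vec s 0 0) 1) : ℝ × ℝ)) apair
    set num : ℝ → ℝ := fun s =>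
      (-dx u (Q (vec s 0 0) 0, Q (vec s 0 0) 1)) * Q.symm (vec 1 0 0) 2 +
      (-dy u (Q (vec s 0 0) 0, Q (vec s 0 0) 1)) * Q.symm (vec 0 1 0) 2 +
      1 * Q.symm (vec 0 0 1) 2 with hnum
    set den : ℝ → ℝ := fun s => dx u (Q (vec s 0 0) 0, Q (vec s 0 0) 1) ^ 2 +
      dy u (Q (vec s 0 0) 0, Q (vec s 0 0) 1) ^ 2 + 1 with hden
    have anum : AnalyticAt ℝ num t₀ :=
      ((a1.neg.mul analyticAt_const).add (a2.neg.mul analyticAt_const)).add analyticAt_const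
    have aden : AnalyticAt ℝ den t₀ := ((a1.pow 2).add (a2.pow 2)).add analyticAt_const
    have hden0 : ∀ s, den s ≠ 0 := by
      intro s
      have : 0 < den s := by
        show 0 < dx u (Q (vec s 0 0) 0, Q (vec s 0 0) 1) ^ 2 +
          dy u (Q (vec s 0 0) 0, Q (vec s 0 0) 1) ^ 2 + 1
        positivity
      exact this.ne'
    have aquot : AnalyticAt ℝ (fun s => num s ^ 2 * (den s)⁻¹) t₀ :=
      (anum.pow 2).mul (aden.inv (hden0 t₀))
    refine aquot.congr ?_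
    have e1 : ∀ᶠ s : ℝ in 𝓝 t₀, |s - t₀| < δ := by
      have := Metric.ball_mem_nhds t₀ h.pos
      filter_upwards [this] with s hs
      rwa [mem_ball, Real.dist_eq] at hs
    have e2 : ∀ᶠ s : ℝ in 𝓝 t₀, |s| < 1 :=
      (continuous_abs.tendsto t₀).eventually (gt_mem_nhds ht₀')
    filter_upwards [e1, e2] with s h1 h2
    have hb : vec s 0 0 ∈ ball (vec t₀ 0 0) δ := vec_mem_ball h1
    have hbox : ((Q (vec s 0 0) 0, Q (vec s 0 0) 1) : ℝ × ℝ) ∈
        ball ((Q (vec t₀ 0 0) 0, Q (vec t₀ 0 0) 1) : ℝ × ℝ) δ :=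
      mem_box.2 ⟨coord_lt hb 0, coord_lt hb 1⟩
    have h3 := normal_two (hf s h2) (hmem s h2) (h.analytic _ hbox) (graphAt_eventually h hb)
    rw [lin_coord] at h3
    have h4 : num s ^ 2 = den s * m s := h3
    show num s ^ 2 * (den s)⁻¹ = m s
    rw [h4, mul_comm (den s) (m s), mul_assoc, mul_inv_cancel₀ (hden0 s), mul_one]
  · intro r U hU t ht ht1
    have hb : ∀ᶠ q in 𝓝 (vec t 0 0), q ∈ A →
        (LinearIsometryEquiv.refl ℝ E3) q 2 =
          U ((LinearIsometryEquiv.refl ℝ E3) q 0, (LinearIsometryEquiv.refl ℝ E3) q 1) := by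
      have z0 : |(0 : ℝ)| < r := by simpa using hU.pos
      have e0 : ∀ᶠ q : E3 in 𝓝 (vec t 0 0), |q 0| < r :=
        (continuous_coord 0).abs.continuousAt.eventually (gt_mem_nhds ht)
      have e1 : ∀ᶠ q : E3 in 𝓝 (vec t 0 0), |q 1| < r :=
        (continuous_coord 1).abs.continuousAt.eventually (gt_mem_nhds z0)
      have e2 : ∀ᶠ q : E3 in 𝓝 (vec t 0 0), |q 2| < r :=
        (continuous_coord 2).abs.continuousAt.eventually (gt_mem_nhds z0)
      filter_upwards [e0, e1, e2] with q h0 h1 h2 hq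
      simp only [LinearIsometryEquiv.coe_refl, id]
      rw [← vec_eta q] at hq
      exact (hU.graph _ _ _ h0 h1 h2).1 hq
    have haU : AnalyticAt ℝ U ((LinearIsometryEquiv.refl ℝ E3) (vec t 0 0) 0,
        (LinearIsometryEquiv.refl ℝ E3) (vec t 0 0) 1) := by
      simp only [LinearIsometryEquiv.coe_refl, id, vec_0, vec_1]
      exact hU.analytic _ (axis_mem t ht)
    have h3 := normal_two (hf t ht1) (hmem t ht1) haU hb
    have hs : ∀ q : E3, (LinearIsometryEquiv.refl ℝ E3).symm q = q := fun q => rfl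
    simp only [LinearIsometryEquiv.coe_refl, id, vec_0, vec_1] at h3
    rw [hs, vec_2] at h3
    have hx : dx U (t, 0) = 0 :=
      dx_axis hU.analytic (fun x hx => axis_zero hU gA zA x hx) t ht
    rw [hx] at h3
    have h4 : m t = ((Qf t).symm (vec 0 0 1) 2) ^ 2 := rfl
    rw [← h4] at h3
    linarith

lemma angle_mirror {A : Set E3} {t : ℝ} {Q : E3 ≃ₗᵢ[ℝ] E3} {δ : ℝ} {u : ℝ × ℝ → ℝ}
    (h : GraphAt A (vec t 0 0) Q δ u) :
    GraphAt (mirror '' A) (vec t 0 0) (mirrorE.symm.trans Q) δ u := by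
  have hfix : mirror (vec t 0 0) = vec t 0 0 := by apply ext3 <;> simp [mirror]
  have e : ∀ x : E3, (mirrorE.symm.trans Q) x = Q (mirror x) := fun x => rfl
  refine ⟨h.pos, ?_, ?_, ?_, ?_⟩
  · rw [e, hfix]; exact h.analytic
  · rw [e, hfix]; exact h.mse
  · rw [e, hfix]; exact h.slope
  · intro q
    rw [e, e, hfix, mem_mirror]
    exact h.graph _

/-- **The criterion.** -/
theorem congruent_iff_angle {n : ℕ} (hn : 2 ≤ n) {A B : Set E3} (hA : IsSurface A)
    (hB : IsSurface B) (gA : Antiprism n A) (gB : Antiprism n B) (zA : (0 : E3) ∈ A)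
    (zB : (0 : E3) ∈ B) :
    Congruent A B ↔ ∃ t₀ ∈ Ioo (-1 : ℝ) 1, ∃ᶠ t in 𝓝[≠] t₀,
      ∃ c, AngleCos A t c ∧ AngleCos B t c := by
  obtain ⟨mA, aA, wA, sA⟩ := exists_angle hn hA gA zA
  obtain ⟨mB, aB, wB, sB⟩ := exists_angle hn hB gB zB
  have hIoo : ∀ t : ℝ, t ∈ Ioo (-1 : ℝ) 1 ↔ |t| < 1 := fun t => by
    rw [abs_lt]; rfl
  constructor
  · intro hc
    refine ⟨0, ⟨by norm_num, by norm_num⟩, ?_⟩
    have hev : ∀ᶠ t in 𝓝[≠] (0 : ℝ), ∃ c, AngleCos A t c ∧ AngleCos B t c := by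
      have e2 : ∀ᶠ s : ℝ in 𝓝 0, |s| < 1 :=
        (continuous_abs.tendsto 0).eventually (gt_mem_nhds (by norm_num))
      filter_upwards [e2.filter_mono nhdsWithin_le_nhds] with t ht
      obtain ⟨Q, δ, u, g⟩ := hA.local_graph _ ⟨axis_subset hn hA gA zA t ht.le, vec_mem_unit ht⟩
      rcases (congruent_iff hn hA hB gA gB zA zB).1 hc with rfl | rfl
      · exact ⟨_, ⟨Q, δ, u, g, rfl⟩, ⟨Q, δ, u, g, rfl⟩⟩
      · refine ⟨_, ⟨Q, δ, u, g, rfl⟩, ⟨_, δ, u, angle_mirror g, ?_⟩⟩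
        have e : (mirrorE.symm.trans Q).symm (vec 0 0 1) 2 = -(Q.symm (vec 0 0 1) 2) := rfl
        rw [e, abs_neg]
    exact hev.frequently
  · rintro ⟨t₀, ht₀, hfr⟩
    have ht₀' : |t₀| < 1 := (hIoo t₀).1 ht₀
    have hfr2 : ∃ᶠ t in 𝓝[≠] t₀, mA t - mB t = 0 := by
      have e2 : ∀ᶠ s : ℝ in 𝓝[≠] t₀, |s| < 1 :=
        ((continuous_abs.tendsto t₀).eventually (gt_mem_nhds ht₀')).filter_mono nhdsWithin_le_nhds
      refine (hfr.and_eventually e2).mono ?_
      rintro t ⟨⟨c, ⟨Q, δ, u, g, hc⟩, ⟨Q', δ', u', g', hc'⟩⟩, ht⟩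
      have htb : t ∈ ball (0 : ℝ) 1 := by simpa using ht
      rw [← wA t htb Q δ u g, ← wB t htb Q' δ' u' g', ← sq_abs (Q.symm (vec 0 0 1) 2),
        ← sq_abs (Q'.symm (vec 0 0 1) 2), ← hc, ← hc', sub_self]
    have haAB : AnalyticOnNhd ℝ (fun t => mA t - mB t) (ball (0 : ℝ) 1) :=
      fun t ht => (aA t ht).sub (aB t ht)
    have hall := haAB.eqOn_zero_of_preconnected_of_frequently_eq_zero
      (convex_ball (0 : ℝ) 1).isPreconnected (by simpa using ht₀') hfr2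
    obtain ⟨r, U, hU⟩ := exists_stdGraph hn gA zA hA
    obtain ⟨r', V, hV⟩ := exists_stdGraph hn gB zB hB
    have hU' := hU.mono (lt_min hU.pos hV.pos) (min_le_left r r')
    have hV' := hV.mono (lt_min hU.pos hV.pos) (min_le_right r r')
    set ρ := min r r'
    have habs : ∀ᶠ t in 𝓝[≠] (0 : ℝ), dy U (t, 0) = dy V (t, 0) ∨ dy U (t, 0) = -dy V (t, 0) := by
      have e1 : ∀ᶠ s : ℝ in 𝓝 0, |s| < 1 :=
        (continuous_abs.tendsto 0).eventually (gt_mem_nhds (by norm_num))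
      have e2 : ∀ᶠ s : ℝ in 𝓝 0, |s| < ρ :=
        (continuous_abs.tendsto 0).eventually (gt_mem_nhds (by simpa using hU'.pos))
      filter_upwards [e1.filter_mono nhdsWithin_le_nhds, e2.filter_mono nhdsWithin_le_nhds]
        with t h1 h2
      have htb : t ∈ ball (0 : ℝ) 1 := by simpa using h1
      have k1 := sA ρ U hU' t h2 h1
      have k2 := sB ρ V hV' t h2 h1
      have k3 : mA t = mB t := sub_eq_zero.1 (hall htb)
      have k4 : mA t ≠ 0 := by
        intro h0; rw [h0, zero_mul] at k1; norm_num at k1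
      rw [← k3] at k2
      have k5 : mA t * (1 + dy U (t, 0) ^ 2) = mA t * (1 + dy V (t, 0) ^ 2) := by rw [k1, k2]
      have k6 := mul_left_cancel₀ k4 k5
      exact sq_eq_sq_iff_eq_or_eq_neg.1 (by linarith)
    rw [congruent_iff hn hA hB gA gB zA zB]
    rcases Filter.frequently_or_distrib.1 habs.frequently with h | h
    · left
      exact (eq_of_slope hA hB gA gB zA zB hU' hV' h).symm
    · right
      have hmB : IsSurface (mirror '' B) := hB.image mirrorE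
      have zmB : (0 : E3) ∈ mirror '' B := image_zero (h := mirrorE) zB
      have := eq_of_slope hA hmB gA (antiprism_mirror gB) zA zmB hU' hV'.mirror
        (h.mono fun t ht => by rw [dy_neg]; exact ht)
      rw [this, mirror_image_image]

end Pool.Agent.MP_d4d38b
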