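import Mathlib

/-!
Uniqueness for the Cauchy problem (Bjoerling problem) of the minimal surface equation in the
real analytic class: two analytic solutions which have the same value and the same
second partial derivative on the first axis coincide.
-/

namespace Pool.Agent.MP_d4d38b

open Set Metric Filter Topology

/-- partial derivative in the first variable -/
noncomputable def dx (u : ℝ × ℝ → ℝ) (p : ℝ × ℝ) : ℝ := fderiv ℝ u p (1, 0)

/-- partial derivative in the second variable -/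
noncomputable def dy (u : ℝ × ℝ → ℝ) (p : ℝ × ℝ) : ℝ := fderiv ℝ u p (0, 1)

/-- the minimal surface equation for the graph of `u`, at the point `p` -/
def MSE (u : ℝ × ℝ → ℝ) (p : ℝ × ℝ) : Prop :=
  (1 + (dy u p) ^ 2) * dx (dx u) p - 2 * (dx u p) * (dy u p) * dx (dy u) p
    + (1 + (dx u p) ^ 2) * dy (dy u) p = 0

section partial_derivatives

variable {u v : ℝ × ℝ → ℝ} {p : ℝ × ℝ}

lemma analyticAt_dx (h : AnalyticAt ℝ u p) : AnalyticAt ℝ (dx u) p := by
  exact ((ContinuousLinearMap.apply ℝ ℝ ((1, 0) : ℝ × ℝ)).analyticAt _).comp h.fderiv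

lemma analyticAt_dy (h : AnalyticAt ℝ u p) : AnalyticAt ℝ (dy u) p := by
  exact ((ContinuousLinearMap.apply ℝ ℝ ((0, 1) : ℝ × ℝ)).analyticAt _).comp h.fderiv

lemma dx_congr (h : u =ᶠ[𝓝 p] v) : dx u p = dx v p := by
  unfold dx; rw [h.fderiv_eq]

lemma dy_congr (h : u =ᶠ[𝓝 p] v) : dy u p = dy v p := by
  unfold dy; rw [h.fderiv_eq]

lemma dx_sub (hu : AnalyticAt ℝ u p) (hv : AnalyticAt ℝ v p) :
    dx (fun q => u q - v q) p = dx u p - dx v p := by
  unfold dx
  rw [fderiv_fun_sub hu.differentiableAt hv.differentiableAt]; rfl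

lemma dy_sub (hu : AnalyticAt ℝ u p) (hv : AnalyticAt ℝ v p) :
    dy (fun q => u q - v q) p = dy u p - dy v p := by
  unfold dy
  rw [fderiv_fun_sub hu.differentiableAt hv.differentiableAt]; rfl

lemma dx_mul (hu : AnalyticAt ℝ u p) (hv : AnalyticAt ℝ v p) :
    dx (fun q => u q * v q) p = u p * dx v p + v p * dx u p := by
  unfold dx
  rw [fderiv_fun_mul hu.differentiableAt hv.differentiableAt]
  simp

lemma dy_mul (hu : AnalyticAt ℝ u p) (hv : AnalyticAt ℝ v p) :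
    dy (fun q => u q * v q) p = u p * dy v p + v p * dy u p := by
  unfold dy
  rw [fderiv_fun_mul hu.differentiableAt hv.differentiableAt]
  simp

lemma dx_add (hu : AnalyticAt ℝ u p) (hv : AnalyticAt ℝ v p) :
    dx (fun q => u q + v q) p = dx u p + dx v p := by
  unfold dx
  rw [fderiv_fun_add hu.differentiableAt hv.differentiableAt]; rfl

lemma dy_add (hu : AnalyticAt ℝ u p) (hv : AnalyticAt ℝ v p) :
    dy (fun q => u q + v q) p = dy u p + dy v p := by
  unfold dy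
  rw [fderiv_fun_add hu.differentiableAt hv.differentiableAt]; rfl

lemma fderiv_apply_fderiv (hu : AnalyticAt ℝ u p) (a b : ℝ × ℝ) :
    fderiv ℝ (fun q => fderiv ℝ u q a) p b = fderiv ℝ (fderiv ℝ u) p b a := by
  have h := hu.fderiv.differentiableAt
  rw [fderiv_clm_apply h (differentiableAt_const a)]
  simp

lemma dx_dy_comm (hu : AnalyticAt ℝ u p) : dx (dy u) p = dy (dx u) p := by
  have hs : IsSymmSndFDerivAt ℝ u p :=
    (hu.contDiffAt (n := ⊤)).isSymmSndFDerivAt_of_omega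
  unfold dx dy
  rw [fderiv_apply_fderiv hu, fderiv_apply_fderiv hu]
  exact hs _ _

end partial_derivatives

/-- vanishing to order `k` in the second variable along the first axis -/
def V (δ : ℝ) : ℕ → (ℝ × ℝ → ℝ) → Prop
  | 0, _ => True
  | k + 1, f => (∀ x, |x| < δ → f (x, 0) = 0) ∧ V δ k (dy f)

section vanish

variable {δ : ℝ}

/-- analytic on the square -/
abbrev An (δ : ℝ) (f : ℝ × ℝ → ℝ) : Prop := AnalyticOnNhd ℝ f (ball (0 : ℝ × ℝ) δ)

lemma mem_sq {p : ℝ × ℝ} : p ∈ ball (0 : ℝ × ℝ) δ ↔ |p.1| < δ ∧ |p.2| < δ := by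
  rw [mem_ball_zero_iff, Prod.norm_def, max_lt_iff, Real.norm_eq_abs, Real.norm_eq_abs]

lemma axis_mem (x : ℝ) (hx : |x| < δ) : ((x, 0) : ℝ × ℝ) ∈ ball (0 : ℝ × ℝ) δ := by
  rw [mem_sq]
  exact ⟨hx, by simpa using lt_of_le_of_lt (abs_nonneg x) hx⟩

lemma eventuallyEq_of_eqOn {f g : ℝ × ℝ → ℝ} (h : EqOn f g (ball (0 : ℝ × ℝ) δ)) {p : ℝ × ℝ}
    (hp : p ∈ ball (0 : ℝ × ℝ) δ) : f =ᶠ[𝓝 p] g := by
  filter_upwards [isOpen_ball.mem_nhds hp] with q hq using h hq

lemma V_congr : ∀ (k : ℕ) (f g : ℝ × ℝ → ℝ), EqOn f g (ball (0 : ℝ × ℝ) δ) → V δ k f → V δ k g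
  | 0, _, _, _, _ => trivial
  | k + 1, f, g, h, hf => by
    refine ⟨fun x hx => ?_, V_congr k (dy f) (dy g) ?_ hf.2⟩
    · rw [← h (axis_mem x hx)]; exact hf.1 x hx
    · intro p hp
      exact dy_congr (eventuallyEq_of_eqOn h hp)

lemma V_mono : ∀ (k : ℕ) (f : ℝ × ℝ → ℝ), V δ (k + 1) f → V δ k f
  | 0, _, _ => trivial
  | k + 1, f, hf => ⟨hf.1, V_mono k (dy f) hf.2⟩

lemma V_add : ∀ (k : ℕ) (f g : ℝ × ℝ → ℝ), An δ f → An δ g → V δ k f → V δ k g →
    V δ k (fun q => f q + g q)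
  | 0, _, _, _, _, _, _ => trivial
  | k + 1, f, g, af, ag, hf, hg => by
    refine ⟨fun x hx => by simp only [hf.1 x hx, hg.1 x hx, add_zero], ?_⟩
    refine V_congr k (fun q => dy f q + dy g q) _ ?_
      (V_add k (dy f) (dy g) (fun p hp => analyticAt_dy (af p hp))
        (fun p hp => analyticAt_dy (ag p hp)) hf.2 hg.2)
    intro p hp
    exact (dy_add (af p hp) (ag p hp)).symm

lemma V_mul : ∀ (k : ℕ) (g f : ℝ × ℝ → ℝ), An δ g → An δ f → V δ k f →
    V δ k (fun q => g q * f q)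
  | 0, _, _, _, _, _ => trivial
  | k + 1, g, f, ag, af, hf => by
    refine ⟨fun x hx => by simp only [hf.1 x hx, mul_zero], ?_⟩
    have h1 : V δ k (fun q => dy g q * f q) :=
      V_mul k (dy g) f (fun p hp => analyticAt_dy (ag p hp)) af (V_mono k f hf)
    have h2 : V δ k (fun q => g q * dy f q) :=
      V_mul k g (dy f) ag (fun p hp => analyticAt_dy (af p hp)) hf.2
    refine V_congr k (fun q => g q * dy f q + dy g q * f q) _ ?_
      (V_add k _ _ (fun p hp => (ag p hp).mul (analyticAt_dy (af p hp)))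
        (fun p hp => (analyticAt_dy (ag p hp)).mul (af p hp)) h2 h1)
    intro p hp
    simp only
    rw [dy_mul (ag p hp) (af p hp)]
    ring

lemma dx_axis {f : ℝ × ℝ → ℝ} (af : An δ f) (hf : ∀ x, |x| < δ → f (x, 0) = 0) (x : ℝ)
    (hx : |x| < δ) : dx f (x, 0) = 0 := by
  have hd : HasFDerivAt f (fderiv ℝ f (x, 0)) (x, 0) :=
    (af (x, 0) (axis_mem x hx)).differentiableAt.hasFDerivAt
  have hc : HasDerivAt (fun t : ℝ => ((t, 0) : ℝ × ℝ)) (1, 0) x :=
    (hasDerivAt_id x).prodMk (hasDerivAt_const x 0)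
  have h1 : HasDerivAt (fun t : ℝ => f (t, 0)) (fderiv ℝ f (x, 0) (1, 0)) x :=
    hd.comp_hasDerivAt x hc
  have h2 : (fun t : ℝ => f (t, 0)) =ᶠ[𝓝 x] fun _ => (0 : ℝ) := by
    have : ∀ᶠ t in 𝓝 x, |t| < δ := (continuous_abs.tendsto x).eventually (gt_mem_nhds hx)
    filter_upwards [this] with t ht using hf t ht
  have h3 : HasDerivAt (fun t : ℝ => f (t, 0)) 0 x :=
    (hasDerivAt_const x (0 : ℝ)).congr_of_eventuallyEq h2
  exact h1.unique h3

lemma V_dx : ∀ (k : ℕ) (f : ℝ × ℝ → ℝ), An δ f → V δ k f → V δ k (dx f)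
  | 0, _, _, _ => trivial
  | k + 1, f, af, hf => by
    refine ⟨dx_axis af hf.1, ?_⟩
    refine V_congr k (dx (dy f)) _ ?_ (V_dx k (dy f) (fun p hp => analyticAt_dy (af p hp)) hf.2)
    intro p hp
    exact dx_dy_comm (af p hp)

lemma order_of_V : ∀ (k : ℕ) (f : ℝ × ℝ → ℝ) (x : ℝ), An δ f → |x| < δ → V δ k f →
    (k : ℕ∞) ≤ analyticOrderAt (fun y : ℝ => f (x, y)) 0
  | 0, _, _, _, _, _ => by simp
  | k + 1, f, x, af, hx, hf => by
    have hmem := axis_mem x hx
    have hcur : ∀ y : ℝ, AnalyticAt ℝ (fun y : ℝ => ((x, y) : ℝ × ℝ)) y := fun y =>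
      analyticAt_const.prod analyticAt_id
    have ha : AnalyticAt ℝ (fun y : ℝ => f (x, y)) 0 := (af (x, 0) hmem).comp (hcur 0)
    have h1 := order_of_V k (dy f) x (fun p hp => analyticAt_dy (af p hp)) hx hf.2
    have h2 := ha.analyticOrderAt_deriv_add_one
    have h3 : deriv (fun y : ℝ => f (x, y)) =ᶠ[𝓝 0] fun y : ℝ => dy f (x, y) := by
      have hy : ∀ᶠ y : ℝ in 𝓝 0, |y| < δ := by
        have h0 : |(0 : ℝ)| < δ := by simpa using lt_of_le_of_lt (abs_nonneg x) hx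
        exact (continuous_abs.tendsto 0).eventually (gt_mem_nhds h0)
      filter_upwards [hy] with y hy
      have hd : HasFDerivAt f (fderiv ℝ f (x, y)) (x, y) :=
        (af (x, y) (mem_sq.2 ⟨hx, hy⟩)).differentiableAt.hasFDerivAt
      have hc : HasDerivAt (fun t : ℝ => ((x, t) : ℝ × ℝ)) (0, 1) y :=
        (hasDerivAt_const y x).prodMk (hasDerivAt_id y)
      exact (hd.comp_hasDerivAt y hc).deriv
    rw [analyticOrderAt_congr h3] at h2
    have h4 : (fun y : ℝ => f (x, y) - f (x, 0)) = fun y : ℝ => f (x, y) := by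
      funext y; rw [hf.1 x hx, sub_zero]
    rw [h4] at h2
    rw [← h2]
    push_cast
    gcongr

/-- a function vanishing to every order is zero -/
lemma eq_zero_of_V {f : ℝ × ℝ → ℝ} (af : An δ f) (h : ∀ k, V δ k f) :
    ∀ p ∈ ball (0 : ℝ × ℝ) δ, f p = 0 := by
  rintro ⟨x, y⟩ hp
  rw [mem_sq] at hp
  obtain ⟨hx, hy⟩ := hp
  have htop : analyticOrderAt (fun y : ℝ => f (x, y)) 0 = ⊤ := by
    rw [ENat.eq_top_iff_forall_ge]
    intro k
    exact order_of_V k f x af hx (h k)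
  rw [analyticOrderAt_eq_top] at htop
  have hA : AnalyticOnNhd ℝ (fun y : ℝ => f (x, y)) (ball (0 : ℝ) δ) := by
    intro t ht
    have ht' : |t| < δ := by simpa using ht
    exact (af (x, t) (mem_sq.2 ⟨hx, ht'⟩)).comp
      (f := fun y : ℝ => ((x, y) : ℝ × ℝ)) (analyticAt_const.prod analyticAt_id)
  have hδ : 0 < δ := lt_of_le_of_lt (abs_nonneg x) hx
  have := hA.eqOn_zero_of_preconnected_of_eventuallyEq_zero
    (convex_ball (0 : ℝ) δ).isPreconnected (mem_ball_self hδ) htop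
  exact this (by simpa using hy)

end vanish

/-- Bjoerling uniqueness -/
theorem bjorling {δ : ℝ} {u v : ℝ × ℝ → ℝ} (hu : An δ u) (hv : An δ v)
    (mu : ∀ p ∈ ball (0 : ℝ × ℝ) δ, MSE u p) (mv : ∀ p ∈ ball (0 : ℝ × ℝ) δ, MSE v p)
    (h0 : ∀ x, |x| < δ → u (x, 0) = v (x, 0))
    (h1 : ∀ x, |x| < δ → dy u (x, 0) = dy v (x, 0)) :
    ∀ p ∈ ball (0 : ℝ × ℝ) δ, u p = v p := by
  set w : ℝ × ℝ → ℝ := fun q => u q - v q with hw
  have aw : An δ w := fun p hp => (hu p hp).sub (hv p hp)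
  have aux : An δ (dx u) := fun p hp => analyticAt_dx (hu p hp)
  have auy : An δ (dy u) := fun p hp => analyticAt_dy (hu p hp)
  have avx : An δ (dx v) := fun p hp => analyticAt_dx (hv p hp)
  have avy : An δ (dy v) := fun p hp => analyticAt_dy (hv p hp)
  have avxx : An δ (dx (dx v)) := fun p hp => analyticAt_dx (avx p hp)
  have avxy : An δ (dx (dy v)) := fun p hp => analyticAt_dx (avy p hp)
  have avyy : An δ (dy (dy v)) := fun p hp => analyticAt_dy (avy p hp)
  have awx : An δ (dx w) := fun p hp => analyticAt_dx (aw p hp)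
  have awy : An δ (dy w) := fun p hp => analyticAt_dy (aw p hp)
  have awxx : An δ (dx (dx w)) := fun p hp => analyticAt_dx (awx p hp)
  have awxy : An δ (dx (dy w)) := fun p hp => analyticAt_dx (awy p hp)
  have wx : EqOn (dx w) (fun q => dx u q - dx v q) (ball (0 : ℝ × ℝ) δ) :=
    fun p hp => dx_sub (hu p hp) (hv p hp)
  have wy : EqOn (dy w) (fun q => dy u q - dy v q) (ball (0 : ℝ × ℝ) δ) :=
    fun p hp => dy_sub (hu p hp) (hv p hp)
  have wxx : ∀ p ∈ ball (0 : ℝ × ℝ) δ, dx (dx w) p = dx (dx u) p - dx (dx v) p := by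
    intro p hp
    rw [dx_congr (eventuallyEq_of_eqOn wx hp), dx_sub (aux p hp) (avx p hp)]
  have wxy : ∀ p ∈ ball (0 : ℝ × ℝ) δ, dx (dy w) p = dx (dy u) p - dx (dy v) p := by
    intro p hp
    rw [dx_congr (eventuallyEq_of_eqOn wy hp), dx_sub (auy p hp) (avy p hp)]
  have wyy : ∀ p ∈ ball (0 : ℝ × ℝ) δ, dy (dy w) p = dy (dy u) p - dy (dy v) p := by
    intro p hp
    rw [dy_congr (eventuallyEq_of_eqOn wy hp), dy_sub (auy p hp) (avy p hp)]
  -- the coefficients
  set b1 : ℝ × ℝ → ℝ := fun q => -(1 + dx u q ^ 2)⁻¹ * (1 + dy u q ^ 2) with hb1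
  set b2 : ℝ × ℝ → ℝ := fun q => (1 + dx u q ^ 2)⁻¹ * (2 * dx u q * dy u q) with hb2
  set b3 : ℝ × ℝ → ℝ := fun q =>
    -(1 + dx u q ^ 2)⁻¹ * (-(2 * dx (dy v) q * dy v q) + (dx u q + dx v q) * dy (dy v) q)
    with hb3
  set b4 : ℝ × ℝ → ℝ := fun q =>
    -(1 + dx u q ^ 2)⁻¹ * ((dy u q + dy v q) * dx (dx v) q - 2 * dx (dy v) q * dx u q)
    with hb4
  have ainv : An δ (fun q => (1 + dx u q ^ 2)⁻¹) := by
    intro p hp
    exact (analyticAt_const.add ((aux p hp).pow 2)).inv (ne_of_gt (by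
      show (0 : ℝ) < 1 + dx u p ^ 2
      positivity))
  have ab1 : An δ b1 := fun p hp =>
    ((ainv p hp).neg).mul (analyticAt_const.add ((auy p hp).pow 2))
  have ab2 : An δ b2 := fun p hp =>
    (ainv p hp).mul ((analyticAt_const.mul (aux p hp)).mul (auy p hp))
  have ab3 : An δ b3 := fun p hp =>
    ((ainv p hp).neg).mul ((((analyticAt_const.mul (avxy p hp)).mul (avy p hp)).neg).add
      (((aux p hp).add (avx p hp)).mul (avyy p hp)))
  have ab4 : An δ b4 := fun p hp =>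
    ((ainv p hp).neg).mul ((((auy p hp).add (avy p hp)).mul (avxx p hp)).sub
      ((analyticAt_const.mul (avxy p hp)).mul (aux p hp)))
  have key : EqOn (fun q => (b1 q * dx (dx w) q + b2 q * dx (dy w) q)
      + (b3 q * dx w q + b4 q * dy w q)) (dy (dy w)) (ball (0 : ℝ × ℝ) δ) := by
    intro p hp
    have e1 := mu p hp
    have e2 := mv p hp
    unfold MSE at e1 e2
    have e3 := wx hp
    have e4 := wy hp
    simp only at e3 e4
    have hpos : (1 + dx u p ^ 2) ≠ 0 := by positivity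
    simp only [hb1, hb2, hb3, hb4]
    rw [wxx p hp, wxy p hp, wyy p hp, e3, e4]
    field_simp
    linear_combination e2 - e1
  have step : ∀ k, V δ (k + 2) w → V δ (k + 3) w := by
    intro k hk
    have v0 : V δ (k + 1) (dy w) := hk.2
    have v1 : V δ (k + 1) (dx (dy w)) := V_dx _ _ awy v0
    have v2 : V δ (k + 1) (dx w) := V_mono _ _ (V_dx _ _ aw hk)
    have v3 : V δ (k + 1) (dx (dx w)) := V_mono _ _ (V_dx _ _ awx (V_dx _ _ aw hk))
    have v4 : V δ (k + 1) (dy (dy w)) := by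
      refine V_congr _ _ _ key ?_
      refine V_add _ _ _ ?_ ?_ (V_add _ _ _ ?_ ?_ (V_mul _ _ _ ab1 awxx v3)
        (V_mul _ _ _ ab2 awxy v1)) (V_add _ _ _ ?_ ?_ (V_mul _ _ _ ab3 awx v2)
        (V_mul _ _ _ ab4 awy v0))
      · exact fun p hp => ((ab1 p hp).mul (awxx p hp)).add ((ab2 p hp).mul (awxy p hp))
      · exact fun p hp => ((ab3 p hp).mul (awx p hp)).add ((ab4 p hp).mul (awy p hp))
      · exact fun p hp => (ab1 p hp).mul (awxx p hp)
      · exact fun p hp => (ab2 p hp).mul (awxy p hp)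
      · exact fun p hp => (ab3 p hp).mul (awx p hp)
      · exact fun p hp => (ab4 p hp).mul (awy p hp)
    exact ⟨hk.1, hk.2.1, v4⟩
  have base : V δ 2 w := by
    refine ⟨fun x hx => ?_, fun x hx => ?_, trivial⟩
    · simp only [hw]; rw [h0 x hx, sub_self]
    · rw [wy (axis_mem x hx)]; simp only; rw [h1 x hx, sub_self]
  have all : ∀ k, V δ (k + 2) w := by
    intro k
    induction k with
    | zero => exact base
    | succ k ih => exact step k ih
  have all' : ∀ k, V δ k w := fun k => V_mono _ _ (V_mono _ _ (all k))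
  intro p hp
  have := eq_zero_of_V aw all' p hp
  simp only [hw] at this
  linarith

end Pool.Agent.MP_d4d38b
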