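import Pool.Agent.Lib.MP_d4d38b_gt.Symmetry

/-!
Congruent symmetric surfaces are equal or mirror images; common diameters.
-/

namespace Pool.Agent.MP_d4d38b

open Set Metric Filter Topology

/-- the group of rotations about the axis which preserve `A` -/
def stab (A : Set E3) : AddSubgroup ℝ where
  carrier := {φ | ∀ p ∈ A, rot φ p ∈ A ∧ rot (-φ) p ∈ A}
  zero_mem' := by
    intro p hp
    rw [neg_zero, rot_zero]
    exact ⟨hp, hp⟩
  add_mem' := by
    intro a b ha hb p hp
    constructor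
    · rw [← rot_rot]; exact (ha _ (hb p hp).1).1
    · rw [neg_add, ← rot_rot]; exact (ha _ (hb p hp).2).2
  neg_mem' := by
    intro a ha p hp
    rw [neg_neg]
    exact ⟨(ha p hp).2, (ha p hp).1⟩

lemma mem_stab {A : Set E3} {φ : ℝ} :
    φ ∈ stab A ↔ ∀ p ∈ A, rot φ p ∈ A ∧ rot (-φ) p ∈ A := Iff.rfl

lemma image_rot_of_stab {A : Set E3} {φ : ℝ} (h : φ ∈ stab A) : rot φ '' A = A := by
  apply Subset.antisymm
  · rintro _ ⟨p, hp, rfl⟩
    exact (h p hp).1
  · intro p hp
    exact ⟨rot (-φ) p, (h p hp).2, by rw [rot_rot, add_neg_cancel, rot_zero]⟩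

lemma stab_two_pi {n : ℕ} {A : Set E3} (gA : Antiprism n A) :
    Real.pi / n + Real.pi / n ∈ stab A := by
  have h1 : ∀ p ∈ A, rot (Real.pi / n + Real.pi / n) p ∈ A := by
    intro p hp
    have := gA.1 _ (gA.1 p hp)
    rwa [mirror_rot, mirror_mirror, rot_rot] at this
  intro p hp
  refine ⟨h1 p hp, ?_⟩
  have := gA.2 _ (h1 _ (gA.2 p hp))
  rwa [halfTurn_rot, halfTurn_halfTurn] at this

lemma stab_double {n : ℕ} {A B : Set E3} (gA : Antiprism n A) (gB : Antiprism n B) {θ : ℝ}
    (h : rot θ '' A = B) : θ + θ ∈ stab A := by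
  have h1 : ∀ p ∈ A, rot (-(θ + θ)) (halfTurn p) ∈ A := by
    intro p hp
    have k1 : rot θ p ∈ B := by rw [← h]; exact ⟨p, hp, rfl⟩
    have k2 := gB.2 _ k1
    rw [← h] at k2
    obtain ⟨q, hq, e⟩ := k2
    have : q = rot (-(θ + θ)) (halfTurn p) := by
      rw [halfTurn_rot] at e
      have e2 : rot (-θ) (rot θ q) = rot (-θ) (rot (-θ) (halfTurn p)) := by rw [e]
      rw [rot_rot, neg_add_cancel, rot_zero, rot_rot] at e2
      rw [e2, neg_add]
    rwa [this] at hq
  have h2 : ∀ p ∈ A, rot (-(θ + θ)) p ∈ A := by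
    intro p hp
    have := h1 _ (gA.2 p hp)
    rwa [halfTurn_halfTurn] at this
  intro p hp
  refine ⟨?_, h2 p hp⟩
  have := gA.2 _ (h2 _ (gA.2 p hp))
  rwa [halfTurn_rot, halfTurn_halfTurn, neg_neg] at this

/-- the image of a symmetric surface under `rot (π / n)` is its mirror image -/
lemma rot_eq_mirror {n : ℕ} {A : Set E3} (gA : Antiprism n A) :
    rot (Real.pi / n) '' A = mirror '' A := by
  apply Subset.antisymm
  · rintro _ ⟨p, hp, rfl⟩
    rw [mem_mirror, mirror_rot]
    exact gA.1 p hp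
  · intro q hq
    rw [mem_mirror] at hq
    refine ⟨rot (-(Real.pi / n)) q, ?_, by rw [rot_rot, add_neg_cancel, rot_zero]⟩
    have h1 := gA.1 _ hq
    rw [mirror_mirror] at h1
    have h2 := (stab_two_pi gA _ h1).2
    rw [rot_rot] at h2
    have : -(Real.pi / n + Real.pi / n) + Real.pi / n = -(Real.pi / n) := by ring
    rwa [this] at h2

/-- the flat case: a mirror invariant surface is horizontal near the centre -/
lemma flat_of_mirror {A : Set E3} {r : ℝ} {U : ℝ × ℝ → ℝ} (hU : StdGraph A r U)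
    (zA : (0 : E3) ∈ A) (h : mirror '' A = A) : U =ᶠ[𝓝 (0 : ℝ × ℝ)] fun _ => 0 := by
  have h1 : StdGraph A r (fun w => -U w) := by
    have := hU.mirror
    rwa [h] at this
  filter_upwards [hU.unique h1 zA] with w hw
  linarith

lemma stdGraph_rot_flat {A : Set E3} {r : ℝ} {U : ℝ × ℝ → ℝ} (hU : StdGraph A r U)
    (hz : U =ᶠ[𝓝 (0 : ℝ × ℝ)] fun _ => 0) (θ : ℝ) :
    ∃ ε > 0, ∀ q ∈ ball (0 : E3) ε, (q ∈ A ↔ q ∈ rot θ '' A) := by
  obtain ⟨ρ, ρpos, hρ⟩ := Metric.eventually_nhds_iff_ball.1 hz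
  have key : ∀ q ∈ ball (0 : E3) (min r ρ), (q ∈ A ↔ q 2 = 0) := by
    intro q hq
    have hq' : ‖q‖ < min r ρ := by simpa using hq
    have c : ∀ i : Fin 3, |q i| < r := fun i =>
      lt_of_le_of_lt (abs_coord_le q i) (lt_of_lt_of_le hq' (min_le_left _ _))
    have c' : ∀ i : Fin 3, |q i| < ρ := fun i =>
      lt_of_le_of_lt (abs_coord_le q i) (lt_of_lt_of_le hq' (min_le_right _ _))
    have e := hρ (q 0, q 1) (by rw [mem_sq]; exact ⟨c' 0, c' 1⟩)
    conv_lhs => rw [← vec_eta q, hU.graph _ _ _ (c 0) (c 1) (c 2), e]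
  refine ⟨min r ρ, lt_min hU.pos ρpos, fun q hq => ?_⟩
  have hm : (q ∈ rot θ '' A ↔ rot (-θ) q ∈ A) := by
    constructor
    · rintro ⟨p, hp, rfl⟩
      rwa [rot_rot, neg_add_cancel, rot_zero]
    · intro h
      exact ⟨_, h, by rw [rot_rot, add_neg_cancel, rot_zero]⟩
  have hb : rot (-θ) q ∈ ball (0 : E3) (min r ρ) := by
    rw [mem_ball_zero_iff] at hq ⊢
    have : ‖rot (-θ) q‖ = ‖q‖ := (rotE (-θ)).norm_map q
    rwa [this]
  rw [hm, key q hq, key _ hb]
  have : rot (-θ) q 2 = q 2 := rfl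
  rw [this]

lemma image_zero {h : E3 ≃ₗᵢ[ℝ] E3} {A : Set E3} (zA : (0 : E3) ∈ A) : (0 : E3) ∈ h '' A :=
  ⟨0, zA, by simp⟩

/-- if a rotation about the axis maps a symmetric surface onto a symmetric surface then the
two surfaces are equal or mirror images -/
lemma rot_case {n : ℕ} (hn : 2 ≤ n) {A B : Set E3} (hA : IsSurface A) (hB : IsSurface B)
    (gA : Antiprism n A) (gB : Antiprism n B) (zA : (0 : E3) ∈ A) {θ : ℝ}
    (h : rot θ '' A = B) : B = A ∨ B = mirror '' A := by
  have h2 := stab_double gA gB h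
  have h3 := stab_two_pi gA
  rcases (stab A).dense_or_cyclic with hd | ⟨t, ht⟩
  · -- all rotations preserve `A`
    left
    have hθ : θ ∈ stab A := by
      have hcl : ∀ p ∈ A, ∀ φ : ℝ, rot φ p ∈ A := by
        intro p hp φ
        have hC : IsClosed {φ : ℝ | rot φ p ∈ A} := hA.isClosed.preimage (continuous_rot p)
        have hsub : ((stab A : AddSubgroup ℝ) : Set ℝ) ⊆ {φ : ℝ | rot φ p ∈ A} :=
          fun φ hφ => (hφ p hp).1
        have := closure_minimal hsub hC
        rw [hd.closure_eq] at this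
        exact this (mem_univ φ)
      exact fun p hp => ⟨hcl p hp _, hcl p hp _⟩
    rw [← h, image_rot_of_stab hθ]
  · rw [ht, AddSubgroup.mem_closure_singleton] at h2 h3
    obtain ⟨a, ha⟩ := h2
    obtain ⟨b, hb⟩ := h3
    rw [zsmul_eq_mul] at ha hb
    have hmem : ∀ k : ℤ, (k : ℝ) * t ∈ stab A := by
      intro k
      rw [ht, AddSubgroup.mem_closure_singleton]
      exact ⟨k, by rw [zsmul_eq_mul]⟩
    rcases Int.even_or_odd' a with ⟨a', rfl | rfl⟩
    · left
      have hθ : θ = (a' : ℝ) * t := by push_cast at ha; linarith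
      rw [← h, image_rot_of_stab]
      rw [hθ]; exact hmem a'
    · rcases Int.even_or_odd' b with ⟨b', rfl | rfl⟩
      · left
        have hφ : Real.pi / n = (b' : ℝ) * t := by push_cast at hb; linarith
        have hs : Real.pi / n ∈ stab A := by rw [hφ]; exact hmem b'
        have hm : mirror '' A = A := by rw [← rot_eq_mirror gA, image_rot_of_stab hs]
        obtain ⟨r, U, hU⟩ := exists_stdGraph hn gA zA hA
        have := eq_of_local hA hB zero_mem_unit_ball zA (by
          rw [← h]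
          exact stdGraph_rot_flat hU (flat_of_mirror hU zA hm) θ)
        exact this.symm
      · right
        have hd : θ - Real.pi / n = ((a' - b' : ℤ) : ℝ) * t := by push_cast at ha hb ⊢; linarith
        have hs : θ - Real.pi / n ∈ stab A := by rw [hd]; exact hmem _
        rw [← h, ← rot_eq_mirror gA]
        have : θ = Real.pi / n + (θ - Real.pi / n) := by ring
        have e : rot θ '' A = rot (Real.pi / n) '' (rot (θ - Real.pi / n) '' A) := by
          rw [image_image]
          conv_lhs => rw [this]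
          congr 1
          funext p
          rw [rot_rot]
        rw [e, image_rot_of_stab hs]

/-- the shape of a linear isometry which preserves the horizontal plane -/
lemma isometry_cases (h : E3 ≃ₗᵢ[ℝ] E3) (h1 : h (vec 1 0 0) 2 = 0) (h2 : h (vec 0 1 0) 2 = 0) :
    ∃ θ : ℝ, (∀ p, h p = rot θ p) ∨ (∀ p, h p = rot θ (mirror p)) ∨
      (∀ p, h p = rot θ (mirror (halfTurn p))) ∨ (∀ p, h p = rot θ (halfTurn p)) := by
  set a := h (vec 1 0 0) 0 with ha
  set b := h (vec 0 1 0) 0 with hb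
  set c := h (vec 1 0 0) 1 with hc
  set d := h (vec 0 1 0) 1 with hd
  set k0 := h (vec 0 0 1) 0 with hk0
  set k1 := h (vec 0 0 1) 1 with hk1
  set k2 := h (vec 0 0 1) 2 with hk2
  have nrm : ∀ x y z : ℝ, (x * a + y * b + z * k0) ^ 2 + (x * c + y * d + z * k1) ^ 2 +
      (z * k2) ^ 2 = x ^ 2 + y ^ 2 + z ^ 2 := by
    intro x y z
    have e : ‖h (vec x y z)‖ ^ 2 = ‖vec x y z‖ ^ 2 := by rw [h.norm_map]
    rw [norm_vec, norm_sq3, lin_coord h x y z 0, lin_coord h x y z 1, lin_coord h x y z 2, h1, h2,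
      ← ha, ← hb, ← hc, ← hd, ← hk0, ← hk1, ← hk2] at e
    linear_combination e
  have e1 : a ^ 2 + c ^ 2 = 1 := by have := nrm 1 0 0; nlinarith
  have e2 : b ^ 2 + d ^ 2 = 1 := by have := nrm 0 1 0; nlinarith
  have e3 : a * b + c * d = 0 := by have := nrm 1 1 0; nlinarith
  have e4 : k0 ^ 2 + k1 ^ 2 + k2 ^ 2 = 1 := by have := nrm 0 0 1; nlinarith
  have e5 : a * k0 + c * k1 = 0 := by have := nrm 1 0 1; nlinarith
  have e6 : b * k0 + d * k1 = 0 := by have := nrm 0 1 1; nlinarith
  have hdet : (a * d - b * c) ^ 2 = 1 := by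
    have : (a * d - b * c) ^ 2 = (a ^ 2 + c ^ 2) * (b ^ 2 + d ^ 2) - (a * b + c * d) ^ 2 := by
      ring
    rw [this, e1, e2, e3]; ring
  have hk00 : k0 = 0 := by
    have : (a * d - b * c) * k0 = 0 := by linear_combination d * e5 - c * e6
    rcases mul_eq_zero.1 this with hh | hh
    · rw [hh] at hdet; norm_num at hdet
    · exact hh
  have hk10 : k1 = 0 := by
    have : (a * d - b * c) * k1 = 0 := by linear_combination a * e6 - b * e5
    rcases mul_eq_zero.1 this with hh | hh
    · rw [hh] at hdet; norm_num at hdet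
    · exact hh
  have f1 : b = -(c * (a * d - b * c)) := by linear_combination (-b) * e1 + a * e3
  have f2 : d = a * (a * d - b * c) := by linear_combination (-d) * e1 + c * e3
  have hk2s : k2 = 1 ∨ k2 = -1 := by
    rw [hk00, hk10] at e4
    have : (k2 - 1) * (k2 + 1) = 0 := by nlinarith
    rcases mul_eq_zero.1 this with hh | hh
    · left; linarith
    · right; linarith
  obtain ⟨θ, hθc, hθs⟩ : ∃ θ : ℝ, Real.cos θ = a ∧ Real.sin θ = c := by
    have hz : ‖(⟨a, c⟩ : ℂ)‖ = 1 := by
      rw [Complex.norm_eq_sqrt_sq_add_sq]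
      simp only
      rw [e1, Real.sqrt_one]
    refine ⟨Complex.arg ⟨a, c⟩, ?_, ?_⟩
    · rw [Complex.cos_arg (by intro hh; rw [hh] at hz; norm_num at hz), hz]; simp
    · rw [Complex.sin_arg, hz]; simp
  have shape : ∀ p : E3, h p = vec (p 0 * a + p 1 * b) (p 0 * c + p 1 * d) (p 2 * k2) := by
    intro p
    conv_lhs => rw [← vec_eta p]
    apply ext3
    · rw [lin_coord h, ← ha, ← hb, ← hk0, hk00, vec_0]; ring
    · rw [lin_coord h, ← hc, ← hd, ← hk1, hk10, vec_1]; ring
    · rw [lin_coord h, h1, h2, ← hk2, vec_2]; ring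
  have hD : a * d - b * c = 1 ∨ a * d - b * c = -1 := by
    have : (a * d - b * c - 1) * (a * d - b * c + 1) = 0 := by nlinarith
    rcases mul_eq_zero.1 this with hh | hh
    · left; linarith
    · right; linarith
  refine ⟨θ, ?_⟩
  rcases hD with hD | hD <;> rw [hD] at f1 f2 <;> rcases hk2s with hk | hk
  · left
    intro p
    rw [shape, rot, hθc, hθs, f1, f2, hk]
    apply ext3 <;> simp <;> ring
  · right; left
    intro p
    rw [shape, rot, hθc, hθs, f1, f2, hk]
    apply ext3 <;> simp [mirror] <;> ring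
  · right; right; left
    intro p
    rw [shape, rot, hθc, hθs, f1, f2, hk]
    apply ext3 <;> simp [mirror, halfTurn] <;> ring
  · right; right; right
    intro p
    rw [shape, rot, hθc, hθs, f1, f2, hk]
    apply ext3 <;> simp [halfTurn] <;> ring

lemma image_halfTurn {n : ℕ} {A : Set E3} (gA : Antiprism n A) : halfTurn '' A = A := by
  apply Subset.antisymm
  · rintro _ ⟨p, hp, rfl⟩
    exact gA.2 p hp
  · intro p hp
    exact ⟨halfTurn p, gA.2 p hp, halfTurn_halfTurn p⟩

/-- **Congruent symmetric surfaces are equal or mirror images of each other.** -/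
theorem congruent_iff {n : ℕ} (hn : 2 ≤ n) {A B : Set E3} (hA : IsSurface A) (hB : IsSurface B)
    (gA : Antiprism n A) (gB : Antiprism n B) (zA : (0 : E3) ∈ A) (zB : (0 : E3) ∈ B) :
    Congruent A B ↔ B = A ∨ B = mirror '' A := by
  constructor
  · rintro ⟨h, hh⟩
    obtain ⟨Q, δ, u, g⟩ := hA.local_graph 0 ⟨zA, zero_mem_unit_ball⟩
    obtain ⟨Q', δ', u', g'⟩ := hB.local_graph 0 ⟨zB, zero_mem_unit_ball⟩
    obtain ⟨p1, p2, p3⟩ := horizontal hn gA zA g
    obtain ⟨q1, q2, q3⟩ := horizontal hn gB zB g'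
    have hAB : ∀ p ∈ A, h p ∈ B := fun p hp => by rw [← hh]; exact ⟨p, hp, rfl⟩
    have flat : ∀ e : E3, Q e 2 = 0 → h e 2 = 0 := by
      intro e he
      have k1 := tangent_map g g' zA zB hAB e he
      have k2 : Q' (h e) 2 = h e 2 * Q' (vec 0 0 1) 2 := by
        conv_lhs => rw [← vec_eta (h e)]
        rw [lin_coord, q1, q2]; ring
      rw [k2] at k1
      rcases mul_eq_zero.1 k1 with k | k
      · exact k
      · rcases q3 with q | q <;> rw [q] at k <;> norm_num at k
    have z1 := flat _ p1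
    have z2 := flat _ p2
    have hmA : IsSurface (mirror '' A) := hA.image mirrorE
    have zmA : (0 : E3) ∈ mirror '' A := image_zero (h := mirrorE) zA
    have gmA := antiprism_mirror gA
    obtain ⟨θ, c1 | c2 | c3 | c4⟩ := isometry_cases h z1 z2
    · have : rot θ '' A = B := by
        rw [← hh]; apply image_congr; intro p _; exact (c1 p).symm
      exact rot_case hn hA hB gA gB zA this
    · have : rot θ '' (mirror '' A) = B := by
        rw [← hh, image_image]; apply image_congr; intro p _; exact (c2 p).symm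
      rcases rot_case hn hmA hB gmA gB zmA this with k | k
      · right; exact k
      · left; rw [k, mirror_image_image]
    · have : rot θ '' (mirror '' A) = B := by
        have e : B = h '' (halfTurn '' A) := by rw [image_halfTurn gA, hh]
        rw [e, image_image, image_image]; apply image_congr; intro p _
        rw [c3, halfTurn_halfTurn]
      rcases rot_case hn hmA hB gmA gB zmA this with k | k
      · right; exact k
      · left; rw [k, mirror_image_image]
    · have : rot θ '' A = B := by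
        have e : B = h '' (halfTurn '' A) := by rw [image_halfTurn gA, hh]
        rw [e, image_image]; apply image_congr; intro p _
        rw [c4, halfTurn_halfTurn]
      exact rot_case hn hA hB gA gB zA this
  · rintro (rfl | rfl)
    · exact ⟨LinearIsometryEquiv.refl ℝ E3, by simp⟩
    · exact ⟨mirrorE, rfl⟩

/-! ### the common diameters -/

lemma axis_subset {n : ℕ} (hn : 2 ≤ n) {A : Set E3} (hA : IsSurface A) (gA : Antiprism n A)
    (zA : (0 : E3) ∈ A) : ∀ t : ℝ, |t| ≤ 1 → vec t 0 0 ∈ A := by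
  obtain ⟨r, U, hU⟩ := exists_stdGraph hn gA zA hA
  have hc : Continuous fun t : ℝ => vec t 0 0 :=
    continuous_vec continuous_id continuous_const continuous_const
  have hcl : IsClosed {t : ℝ | vec t 0 0 ∈ A} := hA.isClosed.preimage hc
  set u : Set ℝ := {t | ∀ᶠ s in 𝓝 t, vec s 0 0 ∈ A} with hu
  have ou : IsOpen u := by
    rw [isOpen_iff_mem_nhds]
    intro t ht
    exact eventually_eventually_nhds.2 ht
  have usub : u ⊆ {t : ℝ | vec t 0 0 ∈ A} := fun t ht => ht.self_of_nhds
  have hmain : Ioo (-1 : ℝ) 1 ⊆ u := by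
    refine isPreconnected_Ioo.subset_of_closure_inter_subset ou ?_ ?_
    · refine ⟨0, ⟨by norm_num, by norm_num⟩, ?_⟩
      have e2 : ∀ᶠ t : ℝ in 𝓝 0, |t| < r :=
        (continuous_abs.tendsto 0).eventually (gt_mem_nhds (by simpa using hU.pos))
      show ∀ᶠ s in 𝓝 (0 : ℝ), vec s 0 0 ∈ A
      filter_upwards [e2] with t ht
      have z0 : |(0 : ℝ)| < r := by simpa using hU.pos
      rw [hU.graph t 0 0 ht z0 z0]
      exact (axis_zero hU gA zA t ht).symm
    · rintro t ⟨htc, ht1, ht2⟩
      have htA : vec t 0 0 ∈ A := closure_minimal usub hcl htc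
      have htb : vec t 0 0 ∈ ball (0 : E3) 1 := by
        rw [mem_ball_zero_iff]
        have h1 : ‖vec t 0 0‖ ^ 2 = t ^ 2 := by rw [norm_vec]; ring
        have h2 : ‖vec t 0 0‖ ^ 2 < 1 := by rw [h1]; nlinarith
        nlinarith [norm_nonneg (vec t 0 0)]
      obtain ⟨Q, δ, f, g⟩ := hA.local_graph _ ⟨htA, htb⟩
      have hQ : ∀ (s : ℝ) (i : Fin 3), Q (vec s 0 0) i = s * Q (vec 1 0 0) i := by
        intro s i; rw [lin_coord]; ring
      have hle : ∀ i : Fin 3, |Q (vec 1 0 0) i| ≤ 1 := by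
        intro i
        have h1 := abs_coord_le (Q (vec 1 0 0)) i
        rw [Q.norm_map] at h1
        have h2 : ‖vec 1 0 0‖ ^ 2 = 1 := by rw [norm_vec]; ring
        nlinarith [norm_nonneg (vec 1 0 0), abs_nonneg (Q (vec 1 0 0) i)]
      have hdist : ∀ s : ℝ, |s - t| < δ → ∀ i : Fin 3,
          |Q (vec s 0 0) i - Q (vec t 0 0) i| < δ := by
        intro s hs i
        rw [hQ s, hQ t, ← sub_mul, abs_mul]
        calc |s - t| * |Q (vec 1 0 0) i| ≤ |s - t| * 1 := by gcongr; exact hle i
          _ < δ := by rw [mul_one]; exact hs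
      set F : ℝ → ℝ := fun s => Q (vec s 0 0) 2 - f (Q (vec s 0 0) 0, Q (vec s 0 0) 1) with hF
      have aQ : ∀ (i : Fin 3) (s : ℝ), AnalyticAt ℝ (fun s : ℝ => Q (vec s 0 0) i) s := by
        intro i s
        have : (fun s : ℝ => Q (vec s 0 0) i) = fun s : ℝ => s * Q (vec 1 0 0) i := by
          funext s; exact hQ s i
        rw [this]
        exact analyticAt_id.mul analyticAt_const
      have aF : AnalyticOnNhd ℝ F (ball t δ) := by
        intro s hs
        rw [mem_ball, Real.dist_eq] at hs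
        have hbox : ((Q (vec s 0 0) 0, Q (vec s 0 0) 1) : ℝ × ℝ) ∈
            ball ((Q (vec t 0 0) 0, Q (vec t 0 0) 1) : ℝ × ℝ) δ :=
          mem_box.2 ⟨hdist s hs 0, hdist s hs 1⟩
        exact (aQ 2 s).sub ((g.analytic _ hbox).comp
          (f := fun s : ℝ => ((Q (vec s 0 0) 0, Q (vec s 0 0) 1) : ℝ × ℝ))
          ((aQ 0 s).prod (aQ 1 s)))
      have hFA : ∀ s ∈ ball t δ, (vec s 0 0 ∈ A ↔ F s = 0) := by
        intro s hs
        rw [mem_ball, Real.dist_eq] at hs
        rw [g.graph _ (hdist s hs 0) (hdist s hs 1) (hdist s hs 2), hF]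
        simp only
        rw [sub_eq_zero]
      obtain ⟨t', ht'b, ht'u⟩ := mem_closure_iff_nhds.1 htc (ball t δ) (ball_mem_nhds t g.pos)
      have hz : F =ᶠ[𝓝 t'] 0 := by
        have e1 : ∀ᶠ s in 𝓝 t', vec s 0 0 ∈ A := ht'u
        have e2 : ∀ᶠ s in 𝓝 t', s ∈ ball t δ := isOpen_ball.mem_nhds ht'b
        filter_upwards [e1, e2] with s h1 h2 using (hFA s h2).1 h1
      have hall := aF.eqOn_zero_of_preconnected_of_eventuallyEq_zero
        (convex_ball t δ).isPreconnected ht'b hz
      show ∀ᶠ s in 𝓝 t, vec s 0 0 ∈ A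
      filter_upwards [ball_mem_nhds t g.pos] with s hs using (hFA s hs).2 (hall hs)
  intro t ht
  have h1 : Icc (-1 : ℝ) 1 ⊆ {t : ℝ | vec t 0 0 ∈ A} := by
    rw [← closure_Ioo (by norm_num : (-1 : ℝ) ≠ 1)]
    exact closure_minimal (hmain.trans usub) hcl
  exact h1 (abs_le.1 ht)

/-- a symmetric surface through the centre contains the `n` diameters -/
theorem diameters {n : ℕ} (hn : 2 ≤ n) {A : Set E3} (hA : IsSurface A) (gA : Antiprism n A)
    (zA : (0 : E3) ∈ A) (j : ℕ) : ∀ t : ℝ, |t| ≤ 1 →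
      vec (t * Real.cos (j * (Real.pi / n))) (t * Real.sin (j * (Real.pi / n))) 0 ∈ A := by
  induction j with
  | zero =>
    intro t ht
    have := axis_subset hn hA gA zA t ht
    simpa using this
  | succ j ih =>
    intro t ht
    have h1 := gA.1 _ (ih t ht)
    have h2 : rot (Real.pi / n) (mirror (vec (t * Real.cos (j * (Real.pi / n)))
        (t * Real.sin (j * (Real.pi / n))) 0)) =
        vec (t * Real.cos ((j + 1 : ℕ) * (Real.pi / n)))
          (t * Real.sin ((j + 1 : ℕ) * (Real.pi / n))) 0 := by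
      have e : ((j + 1 : ℕ) : ℝ) * (Real.pi / n) = j * (Real.pi / n) + Real.pi / n := by
        push_cast; ring
      rw [e, Real.cos_add, Real.sin_add]
      apply ext3
      · simp only [rot, mirror, vec_0, vec_1]; ring
      · simp only [rot, mirror, vec_0, vec_1]; ring
      · simp [rot, mirror]
    rwa [h2] at h1

/-! ### the flat disk -/

/-- the equatorial disk -/
def disk : Set E3 := {p | p 2 = 0 ∧ ‖p‖ ≤ 1}

lemma disk_inter : disk ∩ ball (0 : E3) 1 = {p : E3 | p 2 = 0 ∧ ‖p‖ < 1} := by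
  ext p
  constructor
  · rintro ⟨⟨h1, -⟩, h2⟩
    exact ⟨h1, by simpa using h2⟩
  · rintro ⟨h1, h2⟩
    exact ⟨⟨h1, h2.le⟩, by simpa using h2⟩

lemma isSurface_disk : IsSurface disk where
  closure_eq := by
    rw [disk_inter]
    apply Subset.antisymm
    · refine closure_minimal (fun p hp => ⟨hp.1, hp.2.le⟩) ?_
      have c1 : IsClosed {p : E3 | p 2 = 0} :=
        isClosed_eq (continuous_coord 2) continuous_const
      have c2 : IsClosed {p : E3 | ‖p‖ ≤ 1} := isClosed_le continuous_norm continuous_const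
      exact c1.inter c2
    · intro p hp
      have hcurve : Tendsto (fun s : ℝ => s • p) (𝓝[<] 1) (𝓝 p) := by
        have : Tendsto (fun s : ℝ => s • p) (𝓝 1) (𝓝 ((1 : ℝ) • p)) :=
          (continuous_id.smul continuous_const).tendsto 1
        rw [one_smul] at this
        exact this.mono_left nhdsWithin_le_nhds
      refine mem_closure_of_tendsto hcurve ?_
      have e1 : ∀ᶠ s : ℝ in 𝓝[<] 1, 0 < s :=
        (lt_mem_nhds zero_lt_one).filter_mono nhdsWithin_le_nhds
      filter_upwards [e1, self_mem_nhdsWithin] with s h1 h2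
      refine ⟨?_, ?_⟩
      · show s * p 2 = 0
        rw [hp.1, mul_zero]
      · rw [norm_smul, Real.norm_eq_abs, abs_of_pos h1]
        have h3 : s < 1 := h2
        nlinarith [hp.2, norm_nonneg p]
  connected := by
    rw [disk_inter]
    have hconv : Convex ℝ {p : E3 | p 2 = 0 ∧ ‖p‖ < 1} := by
      have c1 : Convex ℝ {p : E3 | p 2 = 0} := by
        intro x hx y hy a b _ _ _
        show a * x 2 + b * y 2 = 0
        have hx' : x 2 = 0 := hx
        have hy' : y 2 = 0 := hy
        rw [hx', hy']; ring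
      have c2 : Convex ℝ {p : E3 | ‖p‖ < 1} := by
        have := convex_ball (0 : E3) 1
        have e : ball (0 : E3) 1 = {p : E3 | ‖p‖ < 1} := by ext p; simp
        rwa [e] at this
      exact c1.inter c2
    exact hconv.isPreconnected
  local_graph := by
    intro p hp
    have hp' := hp
    rw [disk_inter] at hp'
    refine ⟨LinearIsometryEquiv.refl ℝ E3, (1 - ‖p‖) / 3, fun _ => 0, ?_⟩
    have hpos : 0 < (1 - ‖p‖) / 3 := by have := hp'.2; linarith
    have d0 : dx (fun _ : ℝ × ℝ => (0 : ℝ)) = fun _ => 0 := by funext w; simp [dx]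
    have d1 : dy (fun _ : ℝ × ℝ => (0 : ℝ)) = fun _ => 0 := by funext w; simp [dy]
    refine ⟨hpos, fun w _ => analyticAt_const, fun w _ => ?_, ?_, ?_⟩
    · unfold MSE
      simp only [d0, d1]; ring
    · exact ⟨by simp only [d0], by simp only [d1]⟩
    · intro q h0 h1 h2
      simp only [LinearIsometryEquiv.coe_refl, id] at h0 h1 h2 ⊢
      constructor
      · rintro ⟨hq, -⟩; exact hq
      · intro hq
        refine ⟨hq, ?_⟩
        -- the distance to `p` is less than `1 - ‖p‖`
        have h3 : ‖q - p‖ ≤ 1 - ‖p‖ := by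
          have e := norm_sq3 (q - p)
          have e0 : (q - p) 0 = q 0 - p 0 := rfl
          have e1 : (q - p) 1 = q 1 - p 1 := rfl
          have e2 : (q - p) 2 = q 2 - p 2 := rfl
          rw [e0, e1, e2] at e
          have b0 := abs_lt.1 h0
          have b1 := abs_lt.1 h1
          have b2 := abs_lt.1 h2
          set ρ := (1 - ‖p‖) / 3 with hρ
          have s0 : (q 0 - p 0) ^ 2 ≤ ρ ^ 2 := by nlinarith
          have s1 : (q 1 - p 1) ^ 2 ≤ ρ ^ 2 := by nlinarith
          have s2 : (q 2 - p 2) ^ 2 ≤ ρ ^ 2 := by nlinarith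
          have hh : ‖q - p‖ ^ 2 ≤ (3 * ρ) ^ 2 := by nlinarith
          have hle : ‖q - p‖ ≤ 3 * ρ := by
            exact (abs_le_of_sq_le_sq' hh (by linarith)).2
          rw [hρ] at hle
          linarith
        calc ‖q‖ = ‖(q - p) + p‖ := by rw [sub_add_cancel]
          _ ≤ ‖q - p‖ + ‖p‖ := norm_add_le _ _
          _ ≤ 1 := by linarith

lemma mirror_disk : mirror '' disk = disk := by
  ext p
  rw [mem_mirror]
  have h1 : ‖mirror p‖ = ‖p‖ := mirrorE.norm_map p
  have h2 : mirror p 2 = -p 2 := rfl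
  constructor
  · rintro ⟨h, hn⟩
    rw [h2] at h
    exact ⟨by linarith, by rwa [h1] at hn⟩
  · rintro ⟨h, hn⟩
    exact ⟨by rw [h2, h, neg_zero], by rwa [h1]⟩

/-- the flat disk is the only mirror invariant symmetric surface through the centre -/
theorem mirror_invariant_iff {n : ℕ} (hn : 2 ≤ n) {A : Set E3} (hA : IsSurface A)
    (gA : Antiprism n A) (zA : (0 : E3) ∈ A) : mirror '' A = A ↔ A = disk := by
  constructor
  · intro h
    obtain ⟨r, U, hU⟩ := exists_stdGraph hn gA zA hA
    have hz := flat_of_mirror hU zA h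
    obtain ⟨ρ, ρpos, hρ⟩ := Metric.eventually_nhds_iff_ball.1 hz
    refine eq_of_local hA isSurface_disk zero_mem_unit_ball zA
      ⟨min (min r ρ) 1, lt_min (lt_min hU.pos ρpos) one_pos, fun q hq => ?_⟩
    have hq' : ‖q‖ < min (min r ρ) 1 := by simpa using hq
    have hq1 : ‖q‖ < min r ρ := lt_of_lt_of_le hq' (min_le_left _ _)
    have c : ∀ i : Fin 3, |q i| < r := fun i =>
      lt_of_le_of_lt (abs_coord_le q i) (lt_of_lt_of_le hq1 (min_le_left _ _))
    have c' : ∀ i : Fin 3, |q i| < ρ := fun i =>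
      lt_of_le_of_lt (abs_coord_le q i) (lt_of_lt_of_le hq1 (min_le_right _ _))
    have e := hρ (q 0, q 1) (by rw [mem_sq]; exact ⟨c' 0, c' 1⟩)
    have k : (q ∈ A ↔ q 2 = 0) := by
      conv_lhs => rw [← vec_eta q, hU.graph _ _ _ (c 0) (c 1) (c 2), e]
    rw [k]
    exact ⟨fun h => ⟨h, (lt_of_lt_of_le hq' (min_le_right _ _)).le⟩, fun h => h.1⟩
  · rintro rfl
    exact mirror_disk

end Pool.Agent.MP_d4d38b
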