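import Pool.Agent.Lib.MP_d4d38b_gt.Defs

/-!
Unique continuation for the surfaces of `Defs`.
-/

namespace Pool.Agent.MP_d4d38b

open Set Metric Filter Topology

@[simp] lemma vec_0 (x y z : ℝ) : vec x y z 0 = x := rfl
@[simp] lemma vec_1 (x y z : ℝ) : vec x y z 1 = y := rfl
@[simp] lemma vec_2 (x y z : ℝ) : vec x y z 2 = z := rfl

lemma ext3 {p q : E3} (h0 : p 0 = q 0) (h1 : p 1 = q 1) (h2 : p 2 = q 2) : p = q := by
  ext i
  fin_cases i
  · exact h0
  · exact h1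
  · exact h2

lemma vec_eta (p : E3) : vec (p 0) (p 1) (p 2) = p := ext3 rfl rfl rfl

lemma vec_decomp (x y z : ℝ) :
    vec x y z = x • vec 1 0 0 + y • vec 0 1 0 + z • vec 0 0 1 := by
  apply ext3 <;> simp

lemma abs_coord_le (p : E3) (i : Fin 3) : |p i| ≤ ‖p‖ := by
  simpa using PiLp.norm_apply_le p i

lemma mem_box {a b x y r : ℝ} : ((x, y) : ℝ × ℝ) ∈ ball ((a, b) : ℝ × ℝ) r ↔
    |x - a| < r ∧ |y - b| < r := by
  rw [mem_ball, Prod.dist_eq, max_lt_iff, Real.dist_eq, Real.dist_eq]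

lemma coord_lt {Q : E3 ≃ₗᵢ[ℝ] E3} {p q : E3} {r : ℝ} (h : q ∈ ball p r) (i : Fin 3) :
    |Q q i - Q p i| < r := by
  have h1 : |(Q q - Q p) i| ≤ ‖Q q - Q p‖ := abs_coord_le _ i
  have h2 : ‖Q q - Q p‖ = ‖q - p‖ := by rw [← map_sub, Q.norm_map]
  have h3 : ‖q - p‖ < r := by rwa [mem_ball, dist_eq_norm] at h
  have h4 : (Q q - Q p) i = Q q i - Q p i := rfl
  rw [h4, h2] at h1
  linarith

/-- the parametrisation belonging to a graph -/
noncomputable def par (Q : E3 ≃ₗᵢ[ℝ] E3) (f : ℝ × ℝ → ℝ) (w : ℝ × ℝ) : E3 :=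
  Q.symm (vec w.1 w.2 (f w))

lemma continuousAt_vec {f : ℝ × ℝ → ℝ} {w : ℝ × ℝ} (hf : ContinuousAt f w) :
    ContinuousAt (fun w : ℝ × ℝ => vec w.1 w.2 (f w)) w := by
  have h : (fun w : ℝ × ℝ => vec w.1 w.2 (f w)) =
      fun w : ℝ × ℝ => w.1 • vec 1 0 0 + w.2 • vec 0 1 0 + f w • vec 0 0 1 := by
    funext w; exact vec_decomp _ _ _
  rw [h]
  exact ((continuousAt_fst.smul continuousAt_const).add
    (continuousAt_snd.smul continuousAt_const)).add (hf.smul continuousAt_const)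

lemma continuousAt_par {Q : E3 ≃ₗᵢ[ℝ] E3} {f : ℝ × ℝ → ℝ} {w : ℝ × ℝ}
    (hf : ContinuousAt f w) : ContinuousAt (par Q f) w :=
  Q.symm.continuous.continuousAt.comp (continuousAt_vec hf)

@[simp] lemma Q_par (Q : E3 ≃ₗᵢ[ℝ] E3) (f : ℝ × ℝ → ℝ) (w : ℝ × ℝ) :
    Q (par Q f w) = vec w.1 w.2 (f w) := by simp [par]

lemma continuous_coord (i : Fin 3) : Continuous (fun p : E3 => p i) := by fun_prop

/-- every coordinate of a linear image of a parametrisation is analytic -/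
lemma analyticAt_coord_par {Q Q' : E3 ≃ₗᵢ[ℝ] E3} {f : ℝ × ℝ → ℝ} {w : ℝ × ℝ}
    (hf : AnalyticAt ℝ f w) (i : Fin 3) :
    AnalyticAt ℝ (fun w => Q' (par Q f w) i) w := by
  have h : (fun w => Q' (par Q f w) i) = fun w : ℝ × ℝ =>
      w.1 * Q' (Q.symm (vec 1 0 0)) i + w.2 * Q' (Q.symm (vec 0 1 0)) i
        + f w * Q' (Q.symm (vec 0 0 1)) i := by
    funext w
    unfold par
    rw [vec_decomp]
    simp only [map_add, map_smul, PiLp.add_apply, PiLp.smul_apply, smul_eq_mul]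
  rw [h]
  exact ((analyticAt_fst.mul analyticAt_const).add (analyticAt_snd.mul analyticAt_const)).add
    (hf.mul analyticAt_const)

/-- if two surfaces have a common point `x` which is a limit of points near which the first
is contained in the second, then the first is contained in the second near `x` -/
lemma sub_of_acc {A B : Set E3} (hA : IsSurface A) (hB : IsSurface B) {x : E3}
    (hx : x ∈ ball (0 : E3) 1) (xA : x ∈ A) (xB : x ∈ B)
    (hacc : ∀ ε > 0, ∃ y ∈ ball x ε, y ∈ A ∧ ∃ η > 0, ∀ q ∈ ball y η, q ∈ A → q ∈ B) :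
    ∃ ε > 0, ∀ q ∈ ball x ε, q ∈ A → q ∈ B := by
  obtain ⟨Q, δ, f, hf⟩ := hA.local_graph x ⟨xA, hx⟩
  obtain ⟨Q', δ', f', hf'⟩ := hB.local_graph x ⟨xB, hx⟩
  set w0 : ℝ × ℝ := (Q x 0, Q x 1) with hw0
  have w0mem : w0 ∈ ball w0 δ := mem_ball_self hf.pos
  have z0 : |(0 : ℝ)| < δ := by simpa using hf.pos
  have fx : Q x 2 = f w0 := (hf.graph x (by simpa using hf.pos) (by simpa using hf.pos)
    (by simpa using hf.pos)).1 xA
  have P0 : par Q f w0 = x := by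
    apply Q.injective
    rw [Q_par, hw0]
    simp only
    rw [← hw0, ← fx]
    exact vec_eta _
  have cf : ContinuousAt f w0 := (hf.analytic w0 w0mem).continuousAt
  have cP : ContinuousAt (par Q f) w0 := continuousAt_par cf
  -- a good radius
  have ev : ∀ᶠ w in 𝓝 w0, |f w - Q x 2| < δ ∧ w ∈ ball w0 δ ∧
      ∀ i : Fin 3, |Q' (par Q f w) i - Q' x i| < δ' := by
    have e1 : ∀ᶠ w in 𝓝 w0, |f w - Q x 2| < δ := by
      have : ContinuousAt (fun w => |f w - Q x 2|) w0 := (cf.sub continuousAt_const).abs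
      have h0 : |f w0 - Q x 2| < δ := by rw [fx]; simpa using hf.pos
      exact this.eventually (gt_mem_nhds h0)
    have e2 : ∀ᶠ w in 𝓝 w0, w ∈ ball w0 δ := ball_mem_nhds _ hf.pos
    have e3 : ∀ᶠ w in 𝓝 w0, ∀ i : Fin 3, |Q' (par Q f w) i - Q' x i| < δ' := by
      have : ∀ᶠ w in 𝓝 w0, par Q f w ∈ ball x δ' := by
        have := cP.eventually (ball_mem_nhds (par Q f w0) hf'.pos)
        rwa [P0] at this
      filter_upwards [this] with w hw i using coord_lt hw i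
    filter_upwards [e1, e2, e3] with w h1 h2 h3 using ⟨h1, h2, h3⟩
  obtain ⟨r, rpos, hr⟩ := Metric.eventually_nhds_iff_ball.1 ev
  set φ : ℝ × ℝ → ℝ := fun w =>
    Q' (par Q f w) 2 - f' (Q' (par Q f w) 0, Q' (par Q f w) 1) with hφ
  have aφ : AnalyticOnNhd ℝ φ (ball w0 r) := by
    intro w hw
    have hfw := hf.analytic w (hr w hw).2.1
    have hbox : ((Q' (par Q f w) 0, Q' (par Q f w) 1) : ℝ × ℝ) ∈
        ball ((Q' x 0, Q' x 1) : ℝ × ℝ) δ' := mem_box.2 ⟨(hr w hw).2.2 0, (hr w hw).2.2 1⟩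
    refine (analyticAt_coord_par hfw 2).sub ?_
    exact (hf'.analytic _ hbox).comp
      (f := fun w => ((Q' (par Q f w) 0, Q' (par Q f w) 1) : ℝ × ℝ))
      ((analyticAt_coord_par hfw 0).prod (analyticAt_coord_par hfw 1))
  have inA : ∀ w ∈ ball w0 r, par Q f w ∈ A := by
    intro w hw
    obtain ⟨h1, h2, -⟩ := hr w hw
    have h2' : |w.1 - Q x 0| < δ ∧ |w.2 - Q x 1| < δ := mem_box.1 h2
    refine (hf.graph _ ?_ ?_ ?_).2 ?_ <;> rw [Q_par]
    · exact h2'.1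
    · exact h2'.2
    · exact h1
    · rfl
  have inB : ∀ w ∈ ball w0 r, (par Q f w ∈ B ↔ φ w = 0) := by
    intro w hw
    obtain ⟨-, -, h3⟩ := hr w hw
    rw [hf'.graph _ (h3 0) (h3 1) (h3 2), hφ]
    simp only
    rw [sub_eq_zero]
  -- points of `A` near `x` are parametrised
  have hback : ∀ y ∈ ball x r, y ∈ A → ((Q y 0, Q y 1) : ℝ × ℝ) ∈ ball w0 r ∧
      par Q f (Q y 0, Q y 1) = y := by
    intro y hy yA
    have hm : ((Q y 0, Q y 1) : ℝ × ℝ) ∈ ball w0 r := mem_box.2 ⟨coord_lt hy 0, coord_lt hy 1⟩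
    refine ⟨hm, ?_⟩
    have hrδ : ∀ i : Fin 3, |Q y i - Q x i| < δ := by
      intro i
      have hle : r ≤ δ := by
        by_contra hlt
        push Not at hlt
        have hw : ((Q x 0 + δ, Q x 1) : ℝ × ℝ) ∈ ball w0 r :=
          mem_box.2 ⟨by rw [add_sub_cancel_left, abs_of_pos hf.pos]; exact hlt,
            by simpa using rpos⟩
        have := (mem_box.1 (hr _ hw).2.1).1
        rw [add_sub_cancel_left, abs_of_pos hf.pos] at this
        exact lt_irrefl _ this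
      exact lt_of_lt_of_le (coord_lt hy i) hle
    have e := (hf.graph y (hrδ 0) (hrδ 1) (hrδ 2)).1 yA
    apply Q.injective
    rw [Q_par]
    simp only
    rw [← e]
    exact vec_eta _
  obtain ⟨y, hy, yA, η, ηpos, hη⟩ := hacc r rpos
  obtain ⟨wy, Py⟩ := hback y hy yA
  have φ0 : φ =ᶠ[𝓝 ((Q y 0, Q y 1) : ℝ × ℝ)] 0 := by
    have cPy : ContinuousAt (par Q f) (Q y 0, Q y 1) :=
      continuousAt_par (hf.analytic _ (hr _ wy).2.1).continuousAt
    have e1 : ∀ᶠ w in 𝓝 ((Q y 0, Q y 1) : ℝ × ℝ), par Q f w ∈ ball y η := by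
      have := cPy.eventually (ball_mem_nhds _ ηpos)
      rwa [Py] at this
    have e2 : ∀ᶠ w in 𝓝 ((Q y 0, Q y 1) : ℝ × ℝ), w ∈ ball w0 r := isOpen_ball.mem_nhds wy
    filter_upwards [e1, e2] with w h1 h2
    exact (inB w h2).1 (hη _ h1 (inA w h2))
  have φall := aφ.eqOn_zero_of_preconnected_of_eventuallyEq_zero
    (convex_ball w0 r).isPreconnected wy φ0
  refine ⟨r, rpos, fun q hq qA => ?_⟩
  obtain ⟨wq, Pq⟩ := hback q hq qA
  rw [← Pq]
  exact (inB _ wq).2 (φall wq)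

lemma IsSurface.isClosed {A : Set E3} (hA : IsSurface A) : IsClosed A := by
  rw [← hA.closure_eq]; exact isClosed_closure

lemma subset_of_local {A B : Set E3} (hA : IsSurface A) (hB : IsSurface B) {p : E3}
    (hp : p ∈ ball (0 : E3) 1) (pA : p ∈ A) (hloc : ∃ ε > 0, ∀ q ∈ ball p ε, (q ∈ A ↔ q ∈ B)) :
    A ⊆ B := by
  set u : Set E3 := {x | ∃ ε > 0, ∀ q ∈ ball x ε, (q ∈ A ↔ q ∈ B)} with hu
  set v : Set E3 := {x | ∃ ε > 0, ∀ y ∈ ball x ε, y ∈ A → y ∉ u} with hv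
  have ou : IsOpen u := by
    rw [Metric.isOpen_iff]
    rintro x ⟨ε, εpos, hε⟩
    refine ⟨ε / 2, by positivity, fun y hy => ⟨ε / 2, by positivity, fun q hq => hε q ?_⟩⟩
    rw [mem_ball] at *
    linarith [dist_triangle q y x]
  have ov : IsOpen v := by
    rw [Metric.isOpen_iff]
    rintro x ⟨ε, εpos, hε⟩
    refine ⟨ε / 2, by positivity, fun y hy => ⟨ε / 2, by positivity, fun q hq => hε q ?_⟩⟩
    rw [mem_ball] at *
    linarith [dist_triangle q y x]
  have cover : A ∩ ball (0 : E3) 1 ⊆ u ∪ v := by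
    rintro x ⟨xA, xb⟩
    by_contra hno
    rw [mem_union, not_or] at hno
    obtain ⟨xu, xv⟩ := hno
    have hacc : ∀ ε > 0, ∃ y ∈ ball x ε, y ∈ A ∧ y ∈ u := by
      intro ε εpos
      by_contra hcon
      push Not at hcon
      exact xv ⟨ε, εpos, fun y hy yA => hcon y hy yA⟩
    have xB : x ∈ B := by
      rw [← hB.isClosed.closure_eq, Metric.mem_closure_iff]
      intro ε εpos
      obtain ⟨y, hy, yA, η, ηpos, hη⟩ := hacc ε εpos
      refine ⟨y, (hη y (mem_ball_self ηpos)).1 yA, ?_⟩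
      rw [mem_ball, dist_comm] at hy
      exact hy
    obtain ⟨ε1, p1, h1⟩ := sub_of_acc hA hB xb xA xB (by
      intro ε εpos
      obtain ⟨y, hy, yA, η, ηpos, hη⟩ := hacc ε εpos
      exact ⟨y, hy, yA, η, ηpos, fun q hq => (hη q hq).1⟩)
    obtain ⟨ε2, p2, h2⟩ := sub_of_acc hB hA xb xB xA (by
      intro ε εpos
      obtain ⟨y, hy, yA, η, ηpos, hη⟩ := hacc ε εpos
      exact ⟨y, hy, (hη y (mem_ball_self ηpos)).1 yA, η, ηpos, fun q hq => (hη q hq).2⟩)
    exact xu ⟨min ε1 ε2, lt_min p1 p2, fun q hq =>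
      ⟨h1 q (ball_subset_ball (min_le_left _ _) hq),
        h2 q (ball_subset_ball (min_le_right _ _) hq)⟩⟩
  have disj : (A ∩ ball (0 : E3) 1) ∩ (u ∩ v) = ∅ := by
    rw [eq_empty_iff_forall_notMem]
    rintro x ⟨⟨xA, -⟩, xu, ε, εpos, hε⟩
    exact hε x (mem_ball_self εpos) xA xu
  have hs : A ∩ ball (0 : E3) 1 ⊆ u := by
    rcases isPreconnected_iff_subset_of_disjoint.1 hA.connected u v ou ov cover disj with h | h
    · exact h
    · exfalso
      obtain ⟨ε, εpos, hε⟩ := h ⟨pA, hp⟩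
      exact hε p (mem_ball_self εpos) pA hloc
  have hs' : A ∩ ball (0 : E3) 1 ⊆ B := by
    intro x hx
    obtain ⟨ε, εpos, hε⟩ := hs hx
    exact (hε x (mem_ball_self εpos)).1 hx.1
  calc A = closure (A ∩ ball (0 : E3) 1) := hA.closure_eq.symm
    _ ⊆ closure B := closure_mono hs'
    _ = B := hB.isClosed.closure_eq

/-- unique continuation -/
theorem eq_of_local {A B : Set E3} (hA : IsSurface A) (hB : IsSurface B) {p : E3}
    (hp : p ∈ ball (0 : E3) 1) (pA : p ∈ A) (hloc : ∃ ε > 0, ∀ q ∈ ball p ε, (q ∈ A ↔ q ∈ B)) :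
    A = B := by
  refine Subset.antisymm (subset_of_local hA hB hp pA hloc) ?_
  obtain ⟨ε, εpos, hε⟩ := hloc
  exact subset_of_local hB hA hp ((hε p (mem_ball_self εpos)).1 pA)
    ⟨ε, εpos, fun q hq => (hε q hq).symm⟩

end Pool.Agent.MP_d4d38b
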