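import Pool.Agent.Lib.MP_d4d38b_gt.Bjorling

/-!
Definitions for MP_d4d38b_gt: connected properly embedded minimal surfaces in the unit ball
of Euclidean space, the antiprism group, congruence.
-/

namespace Pool.Agent.MP_d4d38b

open Set Metric Filter Topology

/-- Euclidean three-space -/
abbrev E3 : Type := EuclideanSpace ℝ (Fin 3)

/-- the point with coordinates `x, y, z` -/
noncomputable def vec (x y z : ℝ) : E3 := WithLp.toLp 2 ![x, y, z]

/-- In the orthonormal frame given by the linear isometry `Q`, and in the box of half side `δ`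
centred at `p`, the set `A` is the graph of a real analytic solution `u` of the minimal surface
equation, whose graph is at `p` tangent to the plane of the first two axes of the frame.
(Balls of `ℝ × ℝ` are squares.) -/
structure GraphAt (A : Set E3) (p : E3) (Q : E3 ≃ₗᵢ[ℝ] E3) (δ : ℝ) (u : ℝ × ℝ → ℝ) : Prop where
  pos : 0 < δ
  analytic : AnalyticOnNhd ℝ u (ball (Q p 0, Q p 1) δ)
  mse : ∀ w ∈ ball (Q p 0, Q p 1) δ, MSE u w
  slope : dx u (Q p 0, Q p 1) = 0 ∧ dy u (Q p 0, Q p 1) = 0
  graph : ∀ q : E3, |Q q 0 - Q p 0| < δ → |Q q 1 - Q p 1| < δ → |Q q 2 - Q p 2| < δ →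
    (q ∈ A ↔ Q q 2 = u (Q q 0, Q q 1))

/-- `A` is a connected, properly embedded (real analytic) minimal surface of the open unit ball,
together with its limit points on the sphere: `A` is the closure of its part `A ∩ ball 0 1` in
the open ball, this part is connected, and near each of its points it is a minimal graph over
the tangent plane. -/
structure IsSurface (A : Set E3) : Prop where
  closure_eq : closure (A ∩ ball (0 : E3) 1) = A
  connected : IsPreconnected (A ∩ ball (0 : E3) 1)
  local_graph : ∀ p ∈ A ∩ ball (0 : E3) 1, ∃ (Q : E3 ≃ₗᵢ[ℝ] E3) (δ : ℝ) (u : ℝ × ℝ → ℝ),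
    GraphAt A p Q δ u

/-- the reflection in the plane `z = 0` -/
noncomputable def mirror (p : E3) : E3 := vec (p 0) (p 1) (-p 2)

/-- the half turn about the `x`-axis -/
noncomputable def halfTurn (p : E3) : E3 := vec (p 0) (-p 1) (-p 2)

/-- the rotation by the angle `t` about the `z`-axis -/
noncomputable def rot (t : ℝ) (p : E3) : E3 :=
  vec (Real.cos t * p 0 - Real.sin t * p 1) (Real.sin t * p 0 + Real.cos t * p 1) (p 2)

/-- Invariance under the dihedral group of order `4 n` (`n = g + 1`) generated by the
rotatory reflection of angle `π / n` about the `z`-axis and by the half turn about the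
`x`-axis: the symmetry group of the Costa-Hoffman-Meeks surface of genus `g`. -/
def Antiprism (n : ℕ) (A : Set E3) : Prop :=
  (∀ p ∈ A, rot (Real.pi / n) (mirror p) ∈ A) ∧ (∀ p ∈ A, halfTurn p ∈ A)

/-- congruence under `O(3)` -/
def Congruent (A B : Set E3) : Prop := ∃ h : E3 ≃ₗᵢ[ℝ] E3, h '' A = B

end Pool.Agent.MP_d4d38b
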