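import Pool.Agent.Lib.MP_d4d38b_gt.Tangent

/-!
The standard graph of a symmetric surface at the centre.
-/

namespace Pool.Agent.MP_d4d38b

open Set Metric Filter Topology

/-- a linear map of the plane -/
def lin (a b c d : ℝ) (w : ℝ × ℝ) : ℝ × ℝ := (a * w.1 + b * w.2, c * w.1 + d * w.2)

lemma hasFDerivAt_lin (a b c d : ℝ) (w : ℝ × ℝ) :
    HasFDerivAt (lin a b c d)
      ((a • ContinuousLinearMap.fst ℝ ℝ ℝ + b • ContinuousLinearMap.snd ℝ ℝ ℝ).prod
        (c • ContinuousLinearMap.fst ℝ ℝ ℝ + d • ContinuousLinearMap.snd ℝ ℝ ℝ)) w := by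
  unfold lin
  exact ((hasFDerivAt_fst.const_mul a).add (hasFDerivAt_snd.const_mul b)).prodMk
    ((hasFDerivAt_fst.const_mul c).add (hasFDerivAt_snd.const_mul d))

lemma analyticAt_lin (a b c d : ℝ) (w : ℝ × ℝ) : AnalyticAt ℝ (lin a b c d) w := by
  unfold lin
  exact ((analyticAt_const.mul analyticAt_fst).add (analyticAt_const.mul analyticAt_snd)).prod
    ((analyticAt_const.mul analyticAt_fst).add (analyticAt_const.mul analyticAt_snd))

lemma fderiv_two {f : ℝ × ℝ → ℝ} {p : ℝ × ℝ} (x y : ℝ) :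
    fderiv ℝ f p (x, y) = x * dx f p + y * dy f p := by
  have h : ((x, y) : ℝ × ℝ) = x • ((1, 0) : ℝ × ℝ) + y • ((0, 1) : ℝ × ℝ) := by simp
  rw [h, map_add, map_smul, map_smul]
  rfl

lemma dx_lin {f : ℝ × ℝ → ℝ} {a b c d : ℝ} {w : ℝ × ℝ} (hf : AnalyticAt ℝ f (lin a b c d w))
    (g : ℝ) : dx (fun w => g * f (lin a b c d w)) w =
      g * (a * dx f (lin a b c d w) + c * dy f (lin a b c d w)) := by
  have h1 : HasFDerivAt (fun w => g * f (lin a b c d w)) _ w :=
    (hf.differentiableAt.hasFDerivAt.comp w (hasFDerivAt_lin a b c d w)).const_mul g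
  unfold dx
  rw [h1.fderiv]
  simp only [_root_.smul_apply, ContinuousLinearMap.comp_apply,
    ContinuousLinearMap.prod_apply, _root_.add_apply, ContinuousLinearMap.coe_fst',
    ContinuousLinearMap.coe_snd', smul_eq_mul, mul_one, mul_zero, add_zero]
  rw [fderiv_two]
  rfl

lemma dy_lin {f : ℝ × ℝ → ℝ} {a b c d : ℝ} {w : ℝ × ℝ} (hf : AnalyticAt ℝ f (lin a b c d w))
    (g : ℝ) : dy (fun w => g * f (lin a b c d w)) w =
      g * (b * dx f (lin a b c d w) + d * dy f (lin a b c d w)) := by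
  have h1 : HasFDerivAt (fun w => g * f (lin a b c d w)) _ w :=
    (hf.differentiableAt.hasFDerivAt.comp w (hasFDerivAt_lin a b c d w)).const_mul g
  unfold dy
  rw [h1.fderiv]
  simp only [_root_.smul_apply, ContinuousLinearMap.comp_apply,
    ContinuousLinearMap.prod_apply, _root_.add_apply, ContinuousLinearMap.coe_fst',
    ContinuousLinearMap.coe_snd', smul_eq_mul, mul_one, mul_zero, zero_add]
  rw [fderiv_two]
  rfl

/-- the minimal surface equation is invariant under rotations and reflections of the plane and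
under a change of sign -/
lemma mse_lin {f : ℝ × ℝ → ℝ} {a b c d g : ℝ} {w : ℝ × ℝ}
    (hf : AnalyticAt ℝ f (lin a b c d w)) (hm : MSE f (lin a b c d w))
    (h1 : a ^ 2 + c ^ 2 = 1) (h2 : b ^ 2 + d ^ 2 = 1) (h3 : a * b + c * d = 0)
    (hg : g ^ 2 = 1) : MSE (fun w => g * f (lin a b c d w)) w := by
  have hopen : ∀ᶠ z in 𝓝 w, AnalyticAt ℝ f (lin a b c d z) :=
    (analyticAt_lin a b c d w).continuousAt.eventually hf.eventually_analyticAt
  have hx : dx (fun w => g * f (lin a b c d w)) =ᶠ[𝓝 w]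
      fun w => (g * a) * dx f (lin a b c d w) + (g * c) * dy f (lin a b c d w) := by
    filter_upwards [hopen] with z hz
    rw [dx_lin hz g]; ring
  have hy : dy (fun w => g * f (lin a b c d w)) =ᶠ[𝓝 w]
      fun w => (g * b) * dx f (lin a b c d w) + (g * d) * dy f (lin a b c d w) := by
    filter_upwards [hopen] with z hz
    rw [dy_lin hz g]; ring
  have A1 := analyticAt_dx hf
  have A2 := analyticAt_dy hf
  have cl := analyticAt_lin a b c d w
  have B : ∀ (k : ℝ) (F : ℝ × ℝ → ℝ), AnalyticAt ℝ F (lin a b c d w) →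
      AnalyticAt ℝ (fun w => k * F (lin a b c d w)) w := fun k F hF =>
    analyticAt_const.mul (hF.comp cl)
  have comm := dx_dy_comm hf
  have hxx : dx (dx (fun w => g * f (lin a b c d w))) w =
      g * (a ^ 2 * dx (dx f) (lin a b c d w) + 2 * a * c * dx (dy f) (lin a b c d w)
        + c ^ 2 * dy (dy f) (lin a b c d w)) := by
    rw [dx_congr hx, dx_add (B _ _ A1) (B _ _ A2), dx_lin A1, dx_lin A2, ← comm]
    ring
  have hxy : dx (dy (fun w => g * f (lin a b c d w))) w =
      g * (a * b * dx (dx f) (lin a b c d w) + (a * d + b * c) * dx (dy f) (lin a b c d w)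
        + c * d * dy (dy f) (lin a b c d w)) := by
    rw [dx_congr hy, dx_add (B _ _ A1) (B _ _ A2), dx_lin A1, dx_lin A2, ← comm]
    ring
  have hyy : dy (dy (fun w => g * f (lin a b c d w))) w =
      g * (b ^ 2 * dx (dx f) (lin a b c d w) + 2 * b * d * dx (dy f) (lin a b c d w)
        + d ^ 2 * dy (dy f) (lin a b c d w)) := by
    rw [dy_congr hy, dy_add (B _ _ A1) (B _ _ A2), dy_lin A1, dy_lin A2, ← comm]
    ring
  unfold MSE at hm ⊢
  rw [hxx, hxy, hyy, dx_lin hf, dy_lin hf]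
  set p := dx f (lin a b c d w)
  set q := dy f (lin a b c d w)
  set r := dx (dx f) (lin a b c d w)
  set s := dx (dy f) (lin a b c d w)
  set t := dy (dy f) (lin a b c d w)
  -- the determinant is ±1
  have hdet : (a * d - b * c) ^ 2 = 1 := by
    have : (a * d - b * c) ^ 2 = (a ^ 2 + c ^ 2) * (b ^ 2 + d ^ 2) - (a * b + c * d) ^ 2 := by
      ring
    rw [this, h1, h2, h3]; ring
  have rows : a ^ 2 + b ^ 2 = 1 ∧ c ^ 2 + d ^ 2 = 1 ∧ a * c + b * d = 0 := by
    have k1 : b = -(c * (a * d - b * c)) := by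
      linear_combination (-b) * h1 + a * h3
    have k2 : d = a * (a * d - b * c) := by
      linear_combination (-d) * h1 + c * h3
    have k3 : b ^ 2 = c ^ 2 := by
      calc b ^ 2 = (-(c * (a * d - b * c))) ^ 2 := by rw [← k1]
        _ = c ^ 2 * (a * d - b * c) ^ 2 := by ring
        _ = c ^ 2 := by rw [hdet, mul_one]
    have k4 : d ^ 2 = a ^ 2 := by
      calc d ^ 2 = (a * (a * d - b * c)) ^ 2 := by rw [← k2]
        _ = a ^ 2 * (a * d - b * c) ^ 2 := by ring
        _ = a ^ 2 := by rw [hdet, mul_one]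
    refine ⟨by rw [k3]; exact h1, by rw [k4]; linarith, ?_⟩
    calc a * c + b * d = a * c + (-(c * (a * d - b * c))) * (a * (a * d - b * c)) := by
          rw [← k1, ← k2]
      _ = a * c - a * c * (a * d - b * c) ^ 2 := by ring
      _ = 0 := by rw [hdet]; ring
  obtain ⟨r1, r2, r3⟩ := rows
  have hg3 : g ^ 3 = g := by rw [pow_succ, hg, one_mul]
  have id1 : (1 + (g * (b * p + d * q)) ^ 2) * (g * (a ^ 2 * r + 2 * a * c * s + c ^ 2 * t))
      - 2 * (g * (a * p + c * q)) * (g * (b * p + d * q)) *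
        (g * (a * b * r + (a * d + b * c) * s + c * d * t))
      + (1 + (g * (a * p + c * q)) ^ 2) * (g * (b ^ 2 * r + 2 * b * d * s + d ^ 2 * t))
      = g * ((a ^ 2 + b ^ 2) * r + 2 * (a * c + b * d) * s + (c ^ 2 + d ^ 2) * t)
        + g ^ 3 * (a * d - b * c) ^ 2 * (q ^ 2 * r - 2 * p * q * s + p ^ 2 * t) := by
    ring
  rw [id1, r1, r2, r3, hg3, hdet]
  linear_combination g * hm

/-- near the centre `A` is the graph of a solution of the minimal surface equation over the
square of half side `r` in the horizontal plane -/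
structure StdGraph (A : Set E3) (r : ℝ) (U : ℝ × ℝ → ℝ) : Prop where
  pos : 0 < r
  analytic : AnalyticOnNhd ℝ U (ball (0 : ℝ × ℝ) r)
  mse : ∀ w ∈ ball (0 : ℝ × ℝ) r, MSE U w
  graph : ∀ x y z : ℝ, |x| < r → |y| < r → |z| < r → (vec x y z ∈ A ↔ z = U (x, y))

lemma StdGraph.mono {A : Set E3} {r r' : ℝ} {U : ℝ × ℝ → ℝ} (h : StdGraph A r U) (h0 : 0 < r')
    (hr : r' ≤ r) : StdGraph A r' U where
  pos := h0
  analytic := fun w hw => h.analytic w (ball_subset_ball hr hw)
  mse := fun w hw => h.mse w (ball_subset_ball hr hw)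
  graph := fun x y z hx hy hz => h.graph x y z (lt_of_lt_of_le hx hr) (lt_of_lt_of_le hy hr)
    (lt_of_lt_of_le hz hr)

lemma exists_stdGraph {n : ℕ} (hn : 2 ≤ n) {A : Set E3} (gA : Antiprism n A)
    (zA : (0 : E3) ∈ A) (hA : IsSurface A) : ∃ r U, StdGraph A r U := by
  obtain ⟨Q, δ, u, h⟩ := hA.local_graph 0 ⟨zA, zero_mem_unit_ball⟩
  obtain ⟨h1, h2, h3⟩ := horizontal hn gA zA h
  have Q0 : ∀ i : Fin 3, Q 0 i = 0 := by intro i; simp
  have hua := h.analytic
  have hmse := h.mse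
  rw [Q0, Q0] at hua hmse
  set γ := Q (vec 0 0 1) 2 with hγ
  have hγ2 : γ ^ 2 = 1 := by rcases h3 with h | h <;> rw [h] <;> norm_num
  set a := Q (vec 1 0 0) 0 with ha
  set b := Q (vec 0 1 0) 0 with hb
  set c := Q (vec 1 0 0) 1 with hc
  set d := Q (vec 0 1 0) 1 with hd
  have nrm : ∀ p : E3, (Q p 0) ^ 2 + (Q p 1) ^ 2 + (Q p 2) ^ 2 = p 0 ^ 2 + p 1 ^ 2 + p 2 ^ 2 := by
    intro p
    rw [← norm_sq3, ← norm_sq3, Q.norm_map]
  have n1 : a ^ 2 + c ^ 2 = 1 := by
    have := nrm (vec 1 0 0)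
    rw [h1] at this
    simp only [vec_0, vec_1, vec_2] at this
    rw [← ha, ← hc] at this
    linarith
  have n2 : b ^ 2 + d ^ 2 = 1 := by
    have := nrm (vec 0 1 0)
    rw [h2] at this
    simp only [vec_0, vec_1, vec_2] at this
    rw [← hb, ← hd] at this
    linarith
  have n3 : (Q (vec 0 0 1) 0) ^ 2 + (Q (vec 0 0 1) 1) ^ 2 = 0 := by
    have := nrm (vec 0 0 1)
    simp only [vec_0, vec_1, vec_2] at this
    rw [← hγ, hγ2] at this
    linarith
  have m1 : Q (vec 0 0 1) 0 = 0 := by nlinarith [sq_nonneg (Q (vec 0 0 1) 0), sq_nonneg (Q (vec 0 0 1) 1)]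
  have m2 : Q (vec 0 0 1) 1 = 0 := by nlinarith [sq_nonneg (Q (vec 0 0 1) 0), sq_nonneg (Q (vec 0 0 1) 1)]
  have c0 : ∀ x y z : ℝ, Q (vec x y z) 0 = a * x + b * y := by
    intro x y z; rw [lin_coord, m1]; ring
  have c1 : ∀ x y z : ℝ, Q (vec x y z) 1 = c * x + d * y := by
    intro x y z; rw [lin_coord, m2]; ring
  have c2 : ∀ x y z : ℝ, Q (vec x y z) 2 = γ * z := by
    intro x y z; rw [lin_coord, h1, h2]; ring
  have n4 : a * b + c * d = 0 := by
    have := nrm (vec 1 1 0)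
    rw [c0, c1, c2] at this
    simp only [vec_0, vec_1, vec_2] at this
    nlinarith
  have bound : ∀ x y : ℝ, |a * x + b * y| ≤ |x| + |y| ∧ |c * x + d * y| ≤ |x| + |y| := by
    intro x y
    have ka : |a| ≤ 1 := (sq_le_one_iff_abs_le_one _).1 (by nlinarith [sq_nonneg c])
    have kb : |b| ≤ 1 := (sq_le_one_iff_abs_le_one _).1 (by nlinarith [sq_nonneg d])
    have kc : |c| ≤ 1 := (sq_le_one_iff_abs_le_one _).1 (by nlinarith [sq_nonneg a])
    have kd : |d| ≤ 1 := (sq_le_one_iff_abs_le_one _).1 (by nlinarith [sq_nonneg b])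
    constructor
    · calc |a * x + b * y| ≤ |a * x| + |b * y| := abs_add_le _ _
        _ = |a| * |x| + |b| * |y| := by rw [abs_mul, abs_mul]
        _ ≤ 1 * |x| + 1 * |y| := by gcongr
        _ = _ := by ring
    · calc |c * x + d * y| ≤ |c * x| + |d * y| := abs_add_le _ _
        _ = |c| * |x| + |d| * |y| := by rw [abs_mul, abs_mul]
        _ ≤ 1 * |x| + 1 * |y| := by gcongr
        _ = _ := by ring
  have inball : ∀ w ∈ ball (0 : ℝ × ℝ) (δ / 2), lin a b c d w ∈ ball ((0, 0) : ℝ × ℝ) δ := by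
    rintro ⟨x, y⟩ hw
    rw [mem_sq] at hw
    simp only at hw
    unfold lin
    rw [mem_box, sub_zero, sub_zero]
    have := bound x y
    exact ⟨by simp only; linarith [this.1, hw.1, hw.2], by simp only; linarith [this.2, hw.1, hw.2]⟩
  refine ⟨δ / 2, fun w => γ * u (lin a b c d w), by linarith [h.pos], ?_, ?_, ?_⟩
  · intro w hw
    exact analyticAt_const.mul ((hua _ (inball w hw)).comp (analyticAt_lin a b c d w))
  · intro w hw
    exact mse_lin (hua _ (inball w hw)) (hmse _ (inball w hw)) n1 n2 n4 hγ2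
  · intro x y z hx hy hz
    have b1 := bound x y
    have hγ1 : |γ| = 1 := by rcases h3 with h | h <;> rw [h] <;> norm_num
    have := h.graph (vec x y z) (by rw [Q0, sub_zero, c0]; linarith [b1.1])
      (by rw [Q0, sub_zero, c1]; linarith [b1.2])
      (by rw [Q0, sub_zero, c2, abs_mul, hγ1, one_mul]; linarith [h.pos])
    rw [this, c0, c1, c2]
    show γ * z = u (lin a b c d (x, y)) ↔ z = γ * u (lin a b c d (x, y))
    constructor
    · intro hh
      rw [← hh, ← mul_assoc, ← sq, hγ2, one_mul]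
    · intro hh
      conv_lhs => rw [hh]
      rw [← mul_assoc, ← sq, hγ2, one_mul]

end Pool.Agent.MP_d4d38b
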