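import Pool.Agent.Lib.MP_d4d38b_gt.Standard

/-!
Congruence of symmetric surfaces, common diameters, the slope along a diameter.
-/

namespace Pool.Agent.MP_d4d38b

open Set Metric Filter Topology

/-! ### the elementary isometries -/

lemma rot_rot (s t : ℝ) (p : E3) : rot s (rot t p) = rot (s + t) p := by
  apply ext3
  · simp only [rot, vec_0, vec_1, Real.cos_add, Real.sin_add]; ring
  · simp only [rot, vec_0, vec_1, Real.cos_add, Real.sin_add]; ring
  · simp [rot]

lemma rot_zero (p : E3) : rot 0 p = p := by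
  apply ext3 <;> simp [rot]

lemma halfTurn_rot (t : ℝ) (p : E3) : halfTurn (rot t p) = rot (-t) (halfTurn p) := by
  apply ext3
  · simp only [rot, halfTurn, vec_0, vec_1, Real.cos_neg, Real.sin_neg]; ring
  · simp only [rot, halfTurn, vec_0, vec_1, Real.cos_neg, Real.sin_neg]; ring
  · simp [rot, halfTurn]

lemma mirror_rot (t : ℝ) (p : E3) : mirror (rot t p) = rot t (mirror p) := by
  apply ext3 <;> simp [rot, mirror]

lemma mirror_mirror (p : E3) : mirror (mirror p) = p := by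
  apply ext3 <;> simp [mirror]

lemma halfTurn_halfTurn (p : E3) : halfTurn (halfTurn p) = p := by
  apply ext3 <;> simp [halfTurn]

lemma mirror_halfTurn (p : E3) : mirror (halfTurn p) = halfTurn (mirror p) := by
  apply ext3 <;> simp [mirror, halfTurn]

lemma mirror_image_image (A : Set E3) : mirror '' (mirror '' A) = A := by
  rw [image_image]
  simp only [mirror_mirror, image_id']

lemma mem_mirror {A : Set E3} {p : E3} : p ∈ mirror '' A ↔ mirror p ∈ A := by
  constructor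
  · rintro ⟨q, hq, rfl⟩
    rwa [mirror_mirror]
  · intro h
    exact ⟨_, h, mirror_mirror p⟩

lemma antiprism_mirror {n : ℕ} {A : Set E3} (h : Antiprism n A) : Antiprism n (mirror '' A) := by
  constructor
  · intro p hp
    rw [mem_mirror] at hp ⊢
    rw [mirror_rot]
    exact h.1 _ hp
  · intro p hp
    rw [mem_mirror] at hp ⊢
    rw [mirror_halfTurn]
    exact h.2 _ hp

lemma continuous_vec {X : Type*} [TopologicalSpace X] {f g h : X → ℝ} (hf : Continuous f)
    (hg : Continuous g) (hh : Continuous h) : Continuous fun t => vec (f t) (g t) (h t) := by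
  have : (fun t => vec (f t) (g t) (h t)) = fun t =>
      f t • vec 1 0 0 + g t • vec 0 1 0 + h t • vec 0 0 1 := by
    funext t; exact vec_decomp _ _ _
  rw [this]
  exact ((hf.smul continuous_const).add (hg.smul continuous_const)).add (hh.smul continuous_const)

lemma continuous_rot (p : E3) : Continuous fun t => rot t p := by
  unfold rot
  exact continuous_vec ((Real.continuous_cos.mul continuous_const).sub
    (Real.continuous_sin.mul continuous_const)) ((Real.continuous_sin.mul continuous_const).add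
    (Real.continuous_cos.mul continuous_const)) continuous_const

/-! ### images of surfaces -/

lemma image_inter_ball (h : E3 ≃ₗᵢ[ℝ] E3) (A : Set E3) :
    h '' A ∩ ball (0 : E3) 1 = h '' (A ∩ ball (0 : E3) 1) := by
  ext q
  constructor
  · rintro ⟨⟨p, hp, rfl⟩, hb⟩
    refine ⟨p, ⟨hp, ?_⟩, rfl⟩
    rw [mem_ball_zero_iff] at hb ⊢
    rwa [h.norm_map] at hb
  · rintro ⟨p, ⟨hp, hb⟩, rfl⟩
    refine ⟨⟨p, hp, rfl⟩, ?_⟩
    rw [mem_ball_zero_iff] at hb ⊢
    rwa [h.norm_map]

lemma IsSurface.image {A : Set E3} (hA : IsSurface A) (h : E3 ≃ₗᵢ[ℝ] E3) :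
    IsSurface (h '' A) where
  closure_eq := by
    rw [image_inter_ball]
    have := h.toHomeomorph.image_closure (A ∩ ball (0 : E3) 1)
    rw [hA.closure_eq] at this
    exact this.symm
  connected := by
    rw [image_inter_ball]
    exact hA.connected.image _ h.continuous.continuousOn
  local_graph := by
    rintro q ⟨⟨p, hp, rfl⟩, hb⟩
    have hb' : p ∈ ball (0 : E3) 1 := by
      rw [mem_ball_zero_iff] at hb ⊢
      rwa [h.norm_map] at hb
    obtain ⟨Q, δ, u, g⟩ := hA.local_graph p ⟨hp, hb'⟩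
    have e : ∀ x : E3, (h.symm.trans Q) (h x) = Q x := fun x => by simp
    refine ⟨h.symm.trans Q, δ, u, ⟨g.pos, ?_, ?_, ?_, ?_⟩⟩
    · rw [e]; exact g.analytic
    · rw [e]; exact g.mse
    · rw [e]; exact g.slope
    · intro q
      rw [e]
      obtain ⟨x, rfl⟩ := h.surjective q
      rw [e]
      intro h1 h2 h3
      rw [h.injective.mem_set_image]
      exact g.graph x h1 h2 h3

/-! ### standard graphs -/

lemma StdGraph.unique {A : Set E3} {r : ℝ} {U V : ℝ × ℝ → ℝ} (hU : StdGraph A r U)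
    (hV : StdGraph A r V) (zA : (0 : E3) ∈ A) : U =ᶠ[𝓝 (0 : ℝ × ℝ)] V := by
  have h0 : U (0, 0) = 0 := by
    have : vec 0 0 0 ∈ A := by
      have e : vec 0 0 0 = 0 := by apply ext3 <;> simp
      rw [e]; exact zA
    exact ((hU.graph 0 0 0 (by simpa using hU.pos) (by simpa using hU.pos)
      (by simpa using hU.pos)).1 this).symm
  have c0 : ContinuousAt U (0 : ℝ × ℝ) :=
    (hU.analytic _ (mem_ball_self hU.pos)).continuousAt
  have e1 : ∀ᶠ w in 𝓝 (0 : ℝ × ℝ), |U w| < r :=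
    c0.abs.eventually (gt_mem_nhds (by
      show |U (0, 0)| < r
      rw [h0]; simpa using hU.pos))
  have e2 : ∀ᶠ w in 𝓝 (0 : ℝ × ℝ), w ∈ ball (0 : ℝ × ℝ) r := ball_mem_nhds _ hU.pos
  filter_upwards [e1, e2] with w h1 h2
  obtain ⟨x, y⟩ := w
  rw [mem_sq] at h2
  have := (hU.graph x y (U (x, y)) h2.1 h2.2 h1).2 rfl
  exact (hV.graph x y (U (x, y)) h2.1 h2.2 h1).1 this

lemma StdGraph.mirror {A : Set E3} {r : ℝ} {U : ℝ × ℝ → ℝ} (hU : StdGraph A r U) :
    StdGraph (MP_d4d38b.mirror '' A) r (fun w => -U w) where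
  pos := hU.pos
  analytic := fun w hw => (hU.analytic w hw).neg
  mse := by
    intro w hw
    have e : ∀ w, lin 1 0 0 1 w = w := by intro w; simp [lin]
    have := mse_lin (f := U) (a := 1) (b := 0) (c := 0) (d := 1) (g := -1) (w := w)
      (by rw [e]; exact hU.analytic w hw) (by rw [e]; exact hU.mse w hw)
      (by norm_num) (by norm_num) (by norm_num) (by norm_num)
    simpa only [e, neg_mul, one_mul] using this
  graph := by
    intro x y z hx hy hz
    rw [mem_mirror]
    have e : MP_d4d38b.mirror (vec x y z) = vec x y (-z) := by apply ext3 <;> simp [MP_d4d38b.mirror]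
    rw [e, hU.graph x y (-z) hx hy (by rwa [abs_neg])]
    constructor <;> intro h <;> linarith

lemma axis_zero {n : ℕ} {A : Set E3} {r : ℝ} {U : ℝ × ℝ → ℝ} (hU : StdGraph A r U)
    (gA : Antiprism n A) (zA : (0 : E3) ∈ A) : ∀ t : ℝ, |t| < r → U (t, 0) = 0 := by
  have h0 : U (0, 0) = 0 := by
    have : vec 0 0 0 ∈ A := by
      have e : vec 0 0 0 = 0 := by apply ext3 <;> simp
      rw [e]; exact zA
    exact ((hU.graph 0 0 0 (by simpa using hU.pos) (by simpa using hU.pos)
      (by simpa using hU.pos)).1 this).symm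
  have hcur : ∀ t : ℝ, AnalyticAt ℝ (fun t : ℝ => ((t, 0) : ℝ × ℝ)) t := fun t =>
    analyticAt_id.prod analyticAt_const
  have ha : AnalyticOnNhd ℝ (fun t : ℝ => U (t, 0)) (ball (0 : ℝ) r) := by
    intro t ht
    have ht' : |t| < r := by simpa using ht
    exact (hU.analytic (t, 0) (axis_mem t ht')).comp
      (f := fun t : ℝ => ((t, 0) : ℝ × ℝ)) (hcur t)
  have c0 : ContinuousAt (fun t : ℝ => |U (t, 0)|) 0 :=
    ((ha 0 (mem_ball_self hU.pos)).continuousAt).abs
  have e1 : ∀ᶠ t : ℝ in 𝓝 0, |U (t, 0)| < r :=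
    c0.eventually (gt_mem_nhds (by
      show |U (0, 0)| < r
      rw [h0]; simpa using hU.pos))
  have e2 : ∀ᶠ t : ℝ in 𝓝 0, |t| < r :=
    (continuous_abs.tendsto 0).eventually (gt_mem_nhds (by simpa using hU.pos))
  have hz : (fun t : ℝ => U (t, 0)) =ᶠ[𝓝 0] 0 := by
    filter_upwards [e1, e2] with t h1 h2
    have z0 : |(0 : ℝ)| < r := by simpa using hU.pos
    have k1 := (hU.graph t 0 (U (t, 0)) h2 z0 h1).2 rfl
    have k2 := gA.2 _ k1
    have e : halfTurn (vec t 0 (U (t, 0))) = vec t 0 (-U (t, 0)) := by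
      apply ext3 <;> simp [halfTurn]
    rw [e] at k2
    have k3 := (hU.graph t 0 (-U (t, 0)) h2 z0 (by rwa [abs_neg])).1 k2
    show U (t, 0) = 0
    linarith
  intro t ht
  exact ha.eqOn_zero_of_preconnected_of_eventuallyEq_zero (convex_ball (0 : ℝ) r).isPreconnected
    (mem_ball_self hU.pos) hz (by simpa using ht)

/-- two surfaces with the same standard graph at the centre coincide -/
lemma eq_of_graph {A B : Set E3} (hA : IsSurface A) (hB : IsSurface B) (zA : (0 : E3) ∈ A)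
    {r : ℝ} {U V : ℝ × ℝ → ℝ} (hU : StdGraph A r U) (hV : StdGraph B r V)
    (h : U =ᶠ[𝓝 (0 : ℝ × ℝ)] V) : A = B := by
  obtain ⟨ρ, ρpos, hρ⟩ := Metric.eventually_nhds_iff_ball.1 h
  refine eq_of_local hA hB zero_mem_unit_ball zA ⟨min r ρ, lt_min hU.pos ρpos, fun q hq => ?_⟩
  have hq' : ‖q‖ < min r ρ := by simpa using hq
  have c : ∀ i : Fin 3, |q i| < r := fun i =>
    lt_of_le_of_lt (abs_coord_le q i) (lt_of_lt_of_le hq' (min_le_left _ _))
  have c' : ∀ i : Fin 3, |q i| < ρ := fun i =>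
    lt_of_le_of_lt (abs_coord_le q i) (lt_of_lt_of_le hq' (min_le_right _ _))
  have e := hρ (q 0, q 1) (by rw [mem_sq]; exact ⟨c' 0, c' 1⟩)
  rw [← vec_eta q, hU.graph _ _ _ (c 0) (c 1) (c 2), hV.graph _ _ _ (c 0) (c 1) (c 2), e]

/-- the slope along the diameter determines the surface -/
lemma eq_of_slope {n : ℕ} {A B : Set E3} (hA : IsSurface A) (hB : IsSurface B)
    (gA : Antiprism n A) (gB : Antiprism n B) (zA : (0 : E3) ∈ A) (zB : (0 : E3) ∈ B)
    {r : ℝ} {U V : ℝ × ℝ → ℝ} (hU : StdGraph A r U) (hV : StdGraph B r V)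
    (h : ∃ᶠ t in 𝓝[≠] (0 : ℝ), dy U (t, 0) = dy V (t, 0)) : A = B := by
  have hcur : ∀ t : ℝ, AnalyticAt ℝ (fun t : ℝ => ((t, 0) : ℝ × ℝ)) t := fun t =>
    analyticAt_id.prod analyticAt_const
  have ha : AnalyticOnNhd ℝ (fun t : ℝ => dy U (t, 0) - dy V (t, 0)) (ball (0 : ℝ) r) := by
    intro t ht
    have ht' : |t| < r := by simpa using ht
    exact ((analyticAt_dy (hU.analytic (t, 0) (axis_mem t ht'))).comp
      (f := fun t : ℝ => ((t, 0) : ℝ × ℝ)) (hcur t)).sub
      ((analyticAt_dy (hV.analytic (t, 0) (axis_mem t ht'))).comp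
      (f := fun t : ℝ => ((t, 0) : ℝ × ℝ)) (hcur t))
  have hz := ha.eqOn_zero_of_preconnected_of_frequently_eq_zero
    (convex_ball (0 : ℝ) r).isPreconnected (mem_ball_self hU.pos)
    (h.mono fun t ht => sub_eq_zero.2 ht)
  have hall := bjorling hU.analytic hV.analytic hU.mse hV.mse
    (fun t ht => by rw [axis_zero hU gA zA t ht, axis_zero hV gB zB t ht])
    (fun t ht => sub_eq_zero.1 (hz (by simpa using ht)))
  refine eq_of_graph hA hB zA hU hV ?_
  filter_upwards [ball_mem_nhds (0 : ℝ × ℝ) hU.pos] with w hw using hall w hw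

lemma slope_of_eq {A : Set E3} (zA : (0 : E3) ∈ A) {r : ℝ} {U V : ℝ × ℝ → ℝ}
    (hU : StdGraph A r U) (hV : StdGraph A r V) :
    ∃ᶠ t in 𝓝[≠] (0 : ℝ), dy U (t, 0) = dy V (t, 0) := by
  have h := hU.unique hV zA
  have h1 : ∀ᶠ w in 𝓝 (0 : ℝ × ℝ), U =ᶠ[𝓝 w] V := h.eventuallyEq_nhds
  have hc : ContinuousAt (fun t : ℝ => ((t, 0) : ℝ × ℝ)) 0 := by fun_prop
  have h2 : ∀ᶠ t : ℝ in 𝓝 0, U =ᶠ[𝓝 ((t, 0) : ℝ × ℝ)] V := hc.eventually h1
  have h3 : ∀ᶠ t : ℝ in 𝓝[≠] 0, dy U (t, 0) = dy V (t, 0) :=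
    (h2.filter_mono nhdsWithin_le_nhds).mono fun t ht => dy_congr ht
  exact h3.frequently

lemma dy_neg (V : ℝ × ℝ → ℝ) (p : ℝ × ℝ) : dy (fun w => -V w) p = -dy V p := by
  unfold dy
  rw [fderiv_fun_neg]; rfl

end Pool.Agent.MP_d4d38b
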