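import Pool.Agent.Lib.MP_d4d38b_gt.Continuation

/-!
Tangent planes at the centre, the standard graph at the centre.
-/

namespace Pool.Agent.MP_d4d38b

open Set Metric Filter Topology

lemma norm_vec (x y z : ℝ) : ‖vec x y z‖ ^ 2 = x ^ 2 + y ^ 2 + z ^ 2 := by
  rw [EuclideanSpace.norm_sq_eq, Fin.sum_univ_three]
  simp

lemma norm_sq3 (p : E3) : ‖p‖ ^ 2 = p 0 ^ 2 + p 1 ^ 2 + p 2 ^ 2 := by
  rw [← norm_vec, vec_eta]

lemma norm_eq_of_sq {p q : E3} (h : ‖p‖ ^ 2 = ‖q‖ ^ 2) : ‖p‖ = ‖q‖ := by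
  exact (sq_eq_sq₀ (norm_nonneg p) (norm_nonneg q)).1 h

/-- `rot` as a linear isometry -/
noncomputable def rotE (t : ℝ) : E3 ≃ₗᵢ[ℝ] E3 where
  toFun := rot t
  invFun := rot (-t)
  map_add' p q := by
    apply ext3 <;> simp [rot] <;> ring
  map_smul' c p := by
    apply ext3 <;> simp [rot] <;> ring
  left_inv p := by
    have h := Real.sin_sq_add_cos_sq t
    apply ext3
    · simp only [rot, vec_0, vec_1, Real.cos_neg, Real.sin_neg]
      linear_combination (p 0) * h
    · simp only [rot, vec_0, vec_1, Real.cos_neg, Real.sin_neg]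
      linear_combination (p 1) * h
    · simp [rot]
  right_inv p := by
    have h := Real.sin_sq_add_cos_sq t
    apply ext3
    · simp only [rot, vec_0, vec_1, Real.cos_neg, Real.sin_neg]
      linear_combination (p 0) * h
    · simp only [rot, vec_0, vec_1, Real.cos_neg, Real.sin_neg]
      linear_combination (p 1) * h
    · simp [rot]
  norm_map' p := by
    have h := Real.sin_sq_add_cos_sq t
    apply norm_eq_of_sq
    show ‖rot t p‖ ^ 2 = ‖p‖ ^ 2
    rw [norm_sq3 p, rot, norm_vec]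
    linear_combination (p 0 ^ 2 + p 1 ^ 2) * h

/-- `mirror` as a linear isometry -/
noncomputable def mirrorE : E3 ≃ₗᵢ[ℝ] E3 where
  toFun := mirror
  invFun := mirror
  map_add' p q := by
    apply ext3 <;> simp [mirror] <;> ring
  map_smul' c p := by
    apply ext3 <;> simp [mirror]
  left_inv p := by
    apply ext3 <;> simp [mirror]
  right_inv p := by
    apply ext3 <;> simp [mirror]
  norm_map' p := by
    apply norm_eq_of_sq
    show ‖mirror p‖ ^ 2 = ‖p‖ ^ 2
    rw [norm_sq3 p, mirror, norm_vec]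
    ring

/-- `halfTurn` as a linear isometry -/
noncomputable def halfTurnE : E3 ≃ₗᵢ[ℝ] E3 where
  toFun := halfTurn
  invFun := halfTurn
  map_add' p q := by
    apply ext3 <;> simp [halfTurn] <;> ring
  map_smul' c p := by
    apply ext3 <;> simp [halfTurn]
  left_inv p := by
    apply ext3 <;> simp [halfTurn]
  right_inv p := by
    apply ext3 <;> simp [halfTurn]
  norm_map' p := by
    apply norm_eq_of_sq
    show ‖halfTurn p‖ ^ 2 = ‖p‖ ^ 2
    rw [norm_sq3 p, halfTurn, norm_vec]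
    ring

@[simp] lemma rotE_apply (t : ℝ) (p : E3) : rotE t p = rot t p := rfl
@[simp] lemma mirrorE_apply (p : E3) : mirrorE p = mirror p := rfl
@[simp] lemma halfTurnE_apply (p : E3) : halfTurnE p = halfTurn p := rfl

lemma zero_mem_unit_ball : (0 : E3) ∈ ball (0 : E3) 1 := mem_ball_self one_pos

/-- linear images of points of a horizontal line -/
lemma lin_coord (L : E3 ≃ₗᵢ[ℝ] E3) (x y z : ℝ) (i : Fin 3) :
    L (vec x y z) i = x * L (vec 1 0 0) i + y * L (vec 0 1 0) i + z * L (vec 0 0 1) i := by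
  rw [vec_decomp]
  simp only [map_add, map_smul, PiLp.add_apply, PiLp.smul_apply, smul_eq_mul]

lemma fderiv_eq_zero {u : ℝ × ℝ → ℝ} {p : ℝ × ℝ} (h1 : dx u p = 0) (h2 : dy u p = 0) :
    fderiv ℝ u p = 0 := by
  ext
  · simpa [dx] using h1
  · simpa [dy] using h2

/-- an isometry mapping `A` into `B` maps the tangent plane at the centre into the tangent
plane at the centre -/
lemma tangent_map {A B : Set E3} {Q Q' h : E3 ≃ₗᵢ[ℝ] E3} {δ δ' : ℝ} {u u' : ℝ × ℝ → ℝ}
    (hA : GraphAt A 0 Q δ u) (hB : GraphAt B 0 Q' δ' u') (zA : (0 : E3) ∈ A)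
    (zB : (0 : E3) ∈ B) (hh : ∀ p ∈ A, h p ∈ B) (e : E3) (he : Q e 2 = 0) :
    Q' (h e) 2 = 0 := by
  have Q0 : ∀ (L : E3 ≃ₗᵢ[ℝ] E3) (i : Fin 3), L 0 i = 0 := by intro L i; simp
  have hua := hA.analytic
  have hsl := hA.slope
  have hua' := hB.analytic
  have hsl' := hB.slope
  rw [Q0, Q0] at hua hsl hua' hsl'
  have m0 : ((0, 0) : ℝ × ℝ) ∈ ball ((0, 0) : ℝ × ℝ) δ := mem_ball_self hA.pos
  have m0' : ((0, 0) : ℝ × ℝ) ∈ ball ((0, 0) : ℝ × ℝ) δ' := mem_ball_self hB.pos
  have u0 : u (0, 0) = 0 := by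
    have := (hA.graph 0 (by simpa using hA.pos) (by simpa using hA.pos)
      (by simpa using hA.pos)).1 zA
    rw [Q0, Q0, Q0] at this
    exact this.symm
  have u0' : u' (0, 0) = 0 := by
    have := (hB.graph 0 (by simpa using hB.pos) (by simpa using hB.pos)
      (by simpa using hB.pos)).1 zB
    rw [Q0, Q0, Q0] at this
    exact this.symm
  set a := Q e 0 with ha
  set b := Q e 1 with hb
  have ee : e = Q.symm (vec a b 0) := by
    apply Q.injective
    rw [Q.apply_symm_apply]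
    apply ext3
    · simp [ha]
    · simp [hb]
    · simp [he]
  -- the curve in the parameter plane
  have hcurve : HasDerivAt (fun t : ℝ => ((t * a, t * b) : ℝ × ℝ)) (a, b) 0 := by
    have h1 : HasDerivAt (fun t : ℝ => t * a) (1 * a) 0 := (hasDerivAt_id (0 : ℝ)).mul_const a
    have h2 : HasDerivAt (fun t : ℝ => t * b) (1 * b) 0 := (hasDerivAt_id (0 : ℝ)).mul_const b
    simpa using h1.prodMk h2
  have hu : HasDerivAt (fun t : ℝ => u (t * a, t * b)) 0 0 := by
    have h1 : HasFDerivAt u (fderiv ℝ u (0, 0)) ((0 * a, 0 * b) : ℝ × ℝ) := by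
      rw [zero_mul, zero_mul]
      exact (hua _ m0).differentiableAt.hasFDerivAt
    have h2 : HasDerivAt (fun t : ℝ => u (t * a, t * b)) (fderiv ℝ u (0, 0) (a, b)) 0 :=
      h1.comp_hasDerivAt (0 : ℝ) hcurve
    rw [fderiv_eq_zero hsl.1 hsl.2] at h2
    exact h2
  -- the coordinates of the image curve
  set L : E3 ≃ₗᵢ[ℝ] E3 := Q.symm.trans (h.trans Q') with hL
  have hLe : ∀ i, Q' (h e) i = a * L (vec 1 0 0) i + b * L (vec 0 1 0) i := by
    intro i
    have : Q' (h e) = L (vec a b 0) := by rw [hL, ee]; rfl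
    rw [this, lin_coord]; ring
  have hcoord : ∀ i : Fin 3, HasDerivAt (fun t : ℝ => L (vec (t * a) (t * b) (u (t * a, t * b))) i)
      (Q' (h e) i) 0 := by
    intro i
    have h0 : (fun t : ℝ => L (vec (t * a) (t * b) (u (t * a, t * b))) i) = fun t : ℝ =>
        (t * a) * L (vec 1 0 0) i + (t * b) * L (vec 0 1 0) i
          + u (t * a, t * b) * L (vec 0 0 1) i := by
      funext t; exact lin_coord _ _ _ _ _
    rw [h0, hLe]
    have h1 : HasDerivAt (fun t : ℝ => t * a) a 0 := by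
      simpa using (hasDerivAt_id (0 : ℝ)).mul_const a
    have h2 : HasDerivAt (fun t : ℝ => t * b) b 0 := by
      simpa using (hasDerivAt_id (0 : ℝ)).mul_const b
    have h3 : HasDerivAt (fun t : ℝ => (t * a) * L (vec 1 0 0) i + (t * b) * L (vec 0 1 0) i
        + u (t * a, t * b) * L (vec 0 0 1) i)
        (a * L (vec 1 0 0) i + b * L (vec 0 1 0) i + 0 * L (vec 0 0 1) i) 0 :=
      ((h1.mul_const (L (vec 1 0 0) i)).add (h2.mul_const (L (vec 0 1 0) i))).add
      (hu.mul_const (L (vec 0 0 1) i))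
    rw [zero_mul, add_zero] at h3
    exact h3
  set c : ℝ → ℝ × ℝ := fun t => (L (vec (t * a) (t * b) (u (t * a, t * b))) 0,
    L (vec (t * a) (t * b) (u (t * a, t * b))) 1) with hc
  have c0 : c 0 = (0, 0) := by
    have : vec (0 * a) (0 * b) (u (0 * a, 0 * b)) = 0 := by
      rw [zero_mul, zero_mul, u0]; apply ext3 <;> simp
    simp only [hc, this]
    rw [Q0, Q0]
  have hcd : HasDerivAt c (Q' (h e) 0, Q' (h e) 1) 0 := (hcoord 0).prodMk (hcoord 1)
  have hu' : HasDerivAt (fun t : ℝ => u' (c t)) 0 0 := by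
    have h1 : HasFDerivAt u' (fderiv ℝ u' (0, 0)) (c 0) := by
      rw [c0]
      exact (hua' _ m0').differentiableAt.hasFDerivAt
    have h2 : HasDerivAt (fun t : ℝ => u' (c t)) (fderiv ℝ u' (0, 0)
        (Q' (h e) 0, Q' (h e) 1)) 0 := h1.comp_hasDerivAt (0 : ℝ) hcd
    rw [fderiv_eq_zero hsl'.1 hsl'.2] at h2
    exact h2
  -- for small `t` the image curve lies on `B`
  have hev : (fun t : ℝ => L (vec (t * a) (t * b) (u (t * a, t * b))) 2) =ᶠ[𝓝 0]
      fun t : ℝ => u' (c t) := by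
    have e1 : ∀ᶠ t : ℝ in 𝓝 0, |t * a| < δ ∧ |t * b| < δ ∧ |u (t * a, t * b)| < δ := by
      have k1 : ContinuousAt (fun t : ℝ => |t * a|) 0 := by fun_prop
      have k2 : ContinuousAt (fun t : ℝ => |t * b|) 0 := by fun_prop
      have k3 : ContinuousAt (fun t : ℝ => |u (t * a, t * b)|) 0 := hu.continuousAt.abs
      have j1 := k1.eventually (gt_mem_nhds (show |0 * a| < δ by simpa using hA.pos))
      have j2 := k2.eventually (gt_mem_nhds (show |0 * b| < δ by simpa using hA.pos))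
      have j3 := k3.eventually (gt_mem_nhds (show |u (0 * a, 0 * b)| < δ by
        rw [zero_mul, zero_mul, u0]; simpa using hA.pos))
      filter_upwards [j1, j2, j3] with t h1 h2 h3 using ⟨h1, h2, h3⟩
    have e2 : ∀ i : Fin 3, ∀ᶠ t : ℝ in 𝓝 0,
        |L (vec (t * a) (t * b) (u (t * a, t * b))) i| < δ' := by
      intro i
      have k := (hcoord i).continuousAt.abs
      refine k.eventually (gt_mem_nhds ?_)
      have : vec (0 * a) (0 * b) (u (0 * a, 0 * b)) = 0 := by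
        rw [zero_mul, zero_mul, u0]; apply ext3 <;> simp
      show |L (vec (0 * a) (0 * b) (u (0 * a, 0 * b))) i| < δ'
      rw [this, Q0]
      simpa using hB.pos
    filter_upwards [e1, e2 0, e2 1, e2 2] with t h1 h2 h3 h4
    have hAt : Q.symm (vec (t * a) (t * b) (u (t * a, t * b))) ∈ A := by
      refine (hA.graph _ ?_ ?_ ?_).2 ?_
      · rw [Q.apply_symm_apply, Q0, sub_zero]; exact h1.1
      · rw [Q.apply_symm_apply, Q0, sub_zero]; exact h1.2.1
      · rw [Q.apply_symm_apply, Q0, sub_zero]; exact h1.2.2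
      · rw [Q.apply_symm_apply]; rfl
    have hBt := hh _ hAt
    have hLt : Q' (h (Q.symm (vec (t * a) (t * b) (u (t * a, t * b))))) =
        L (vec (t * a) (t * b) (u (t * a, t * b))) := rfl
    have := (hB.graph _ (by rw [Q0, hLt, sub_zero]; exact h2) (by rw [Q0, hLt, sub_zero]; exact h3)
      (by rw [Q0, hLt, sub_zero]; exact h4)).1 hBt
    rw [hLt] at this
    exact this
  have hfin : HasDerivAt (fun t : ℝ => L (vec (t * a) (t * b) (u (t * a, t * b))) 2) 0 0 :=
    hu'.congr_of_eventuallyEq hev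
  exact (hcoord 2).unique hfin

/-- the frame of a symmetric surface at the centre is horizontal -/
lemma horizontal {n : ℕ} (hn : 2 ≤ n) {A : Set E3} (gA : Antiprism n A) (zA : (0 : E3) ∈ A)
    {Q : E3 ≃ₗᵢ[ℝ] E3} {δ : ℝ} {u : ℝ × ℝ → ℝ} (hA : GraphAt A 0 Q δ u) :
    Q (vec 1 0 0) 2 = 0 ∧ Q (vec 0 1 0) 2 = 0 ∧
      (Q (vec 0 0 1) 2 = 1 ∨ Q (vec 0 0 1) 2 = -1) := by
  set α := Q (vec 1 0 0) 2 with hα
  set β := Q (vec 0 1 0) 2 with hβ
  set γ := Q (vec 0 0 1) 2 with hγ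
  have hl : ∀ x y z : ℝ, Q (vec x y z) 2 = x * α + y * β + z * γ := fun x y z => lin_coord _ _ _ _ _
  set φ : ℝ := Real.pi / n with hφ
  have hn' : (2 : ℝ) ≤ n := by exact_mod_cast hn
  have hφ0 : 0 < φ := by rw [hφ]; positivity
  have hφ1 : φ < Real.pi := by
    rw [hφ, div_lt_iff₀ (by linarith)]
    nlinarith [Real.pi_pos]
  have hs : 0 < Real.sin φ := Real.sin_pos_of_pos_of_lt_pi hφ0 hφ1
  have h1 : Q (mirrorE.trans (rotE φ) (vec (-β) α 0)) 2 = 0 := by
    refine tangent_map (h := mirrorE.trans (rotE φ)) hA hA zA zA (fun p hp => gA.1 p hp) _ ?_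
    rw [hl]; ring
  have h2 : mirrorE.trans (rotE φ) (vec (-β) α 0) =
      vec (Real.cos φ * (-β) - Real.sin φ * α) (Real.sin φ * (-β) + Real.cos φ * α) 0 := by
    show rot φ (mirror _) = _
    apply ext3 <;> simp [rot, mirror]
  rw [h2, hl] at h1
  have h3 : α ^ 2 + β ^ 2 = 0 := by
    have : Real.sin φ * (α ^ 2 + β ^ 2) = 0 := by linear_combination -h1
    rcases mul_eq_zero.1 this with h | h
    · exact absurd h hs.ne'
    · exact h
  have hα0 : α = 0 := by nlinarith [sq_nonneg α, sq_nonneg β]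
  have hβ0 : β = 0 := by nlinarith [sq_nonneg α, sq_nonneg β]
  refine ⟨hα0, hβ0, ?_⟩
  -- `γ² = 1`
  have hle : γ ^ 2 ≤ 1 := by
    have h4 : |γ| ≤ ‖Q (vec 0 0 1)‖ := abs_coord_le _ _
    rw [Q.norm_map] at h4
    have h5 : ‖vec 0 0 1‖ ^ 2 = 1 := by rw [norm_vec]; ring
    have h6 : |γ| ^ 2 ≤ ‖vec 0 0 1‖ ^ 2 := by gcongr
    rw [h5, sq_abs] at h6
    exact h6
  have hge : 1 ≤ γ ^ 2 := by
    set ν : E3 := Q.symm (vec 0 0 1) with hν
    have h4 : Q ν 2 = 1 := by rw [hν]; simp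
    have h5 : Q ν 2 = ν 2 * γ := by
      conv_lhs => rw [← vec_eta ν]
      rw [hl, hα0, hβ0]; ring
    have h6 : |ν 2| ≤ ‖ν‖ := abs_coord_le _ _
    have h7 : ‖ν‖ ^ 2 = 1 := by rw [hν, Q.symm.norm_map, norm_vec]; ring
    have h8 : (ν 2) ^ 2 ≤ 1 := by
      rw [← sq_abs, ← h7]; gcongr
    have h9 : (ν 2) ^ 2 * γ ^ 2 = 1 := by
      rw [← mul_pow, ← h5, h4]; ring
    nlinarith [sq_nonneg γ, sq_nonneg (ν 2)]
  have hγ2 : (γ - 1) * (γ + 1) = 0 := by nlinarith
  rcases mul_eq_zero.1 hγ2 with h | h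
  · left; linarith
  · right; linarith

end Pool.Agent.MP_d4d38b
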